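import Mathlib

/-!
# Affine maps of finite nilpotent groups have a cycle of full length
-/

set_option autoImplicit false

namespace Pool.Agent.X250.AffNil

open Function
open scoped commutatorElement

/-- The affine map `x ↦ t α(x)` of a group. -/
def affineMap {G : Type} [Group G] (t : G) (α : MulAut G) : Equiv.Perm G :=
  α.toEquiv.trans (Equiv.mulLeft t)

theorem affineMap_apply {G : Type} [Group G] (t : G) (α : MulAut G) (x : G) :
    affineMap t α x = t * α x := rfl

section Basic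
variable {G : Type} [Group G]

/-- `A` is an affine map with linear part `α`. -/
def Aff (A : Equiv.Perm G) (α : MulAut G) : Prop := ∀ x y, A (x * y) = A x * α y

theorem Aff.pow {A : Equiv.Perm G} {α : MulAut G} (h : Aff A α) (n : ℕ) :
    Aff (A ^ n) (α ^ n) := by
  induction n with
  | zero => intro x y; simp
  | succ n ih =>
    intro x y
    rw [pow_succ, Equiv.Perm.mul_apply, Equiv.Perm.mul_apply, h, ih, pow_succ, MulAut.mul_apply]

theorem Aff.affineMap (t : G) (α : MulAut G) : Aff (affineMap t α) α := by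
  intro x y
  rw [affineMap_apply, affineMap_apply, map_mul, mul_assoc]

theorem Aff.eq_one {A : Equiv.Perm G} {α : MulAut G} (h : Aff A α) {x : G} (hx : A x = x)
    (hα : ∀ y, α y = y) : A = 1 := by
  ext y
  have h1 := h x (x⁻¹ * y)
  rw [mul_inv_cancel_left, hx, hα, mul_inv_cancel_left] at h1
  exact h1

end Basic

/-! ### The abelian case -/

section Abelian
variable {V : Type} [CommGroup V] [Finite V]

theorem pow_cop {m : ℕ} (hcop : Nat.Coprime m (Nat.card V)) (x : V) : ∃ k : ℕ, (x ^ m) ^ k = x :=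
  exists_pow_eq_self_of_coprime (hcop.coprime_dvd_right (orderOf_dvd_natCard x))

theorem pow_cop_one {m : ℕ} (hcop : Nat.Coprime m (Nat.card V)) {x : V} (hx : x ^ m = 1) :
    x = 1 := by
  obtain ⟨k, hk⟩ := pow_cop hcop x
  rw [hx, one_pow] at hk
  exact hk.symm

/-- The norm operator. -/
def nrm (ρ : MulAut V) (m : ℕ) : V →* V where
  toFun u := ∏ i ∈ Finset.range m, (ρ ^ i) u
  map_one' := by simp
  map_mul' u v := by simp [Finset.prod_mul_distrib]

theorem nrm_apply (ρ : MulAut V) (m : ℕ) (u : V) :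
    nrm ρ m u = ∏ i ∈ Finset.range m, (ρ ^ i) u := rfl

theorem fix_nrm {ρ : MulAut V} {m : ℕ} (h : ρ ^ m = 1) (u : V) : ρ (nrm ρ m u) = nrm ρ m u := by
  rw [nrm_apply, map_prod]
  have h1 : ∀ i, ρ ((ρ ^ i) u) = (ρ ^ (i + 1)) u := by
    intro i; rw [pow_succ', MulAut.mul_apply]
  simp only [h1]
  have h2 := Finset.prod_range_succ (fun i => (ρ ^ i) u) m
  rw [Finset.prod_range_succ' (fun i => (ρ ^ i) u) m, h] at h2
  simpa using h2

theorem nrm_fix {ρ : MulAut V} (m : ℕ) {u : V} (h : ρ u = u) : nrm ρ m u = u ^ m := by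
  have h1 : ∀ i : ℕ, (ρ ^ i) u = u := by
    intro i
    induction i with
    | zero => simp
    | succ i ih => rw [pow_succ, MulAut.mul_apply, h, ih]
  rw [nrm_apply]
  simp [h1]

theorem nrm_comm {ρ σ : MulAut V} (m : ℕ) (h : Commute ρ σ) (u : V) :
    nrm ρ m (σ u) = σ (nrm ρ m u) := by
  rw [nrm_apply, nrm_apply, map_prod]
  apply Finset.prod_congr rfl
  intro i _
  have h1 : (ρ ^ i) * σ = σ * ρ ^ i := (h.pow_left i).eq
  rw [← MulAut.mul_apply, h1, MulAut.mul_apply]

theorem abelian_case {T : Equiv.Perm V} {τ : MulAut V} (hT : Aff T τ) {m : ℕ} (hm : T ^ m = 1)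
    (hcop : Nat.Coprime m (Nat.card V)) (hm0 : m ≠ 0) {W : Set V} (hW : W ≠ Set.univ)
    (hWT : ∀ w ∈ W, T w ∈ W) (hWC : ∃ C : Subgroup V, ∀ w ∈ W, ∀ v, v ∈ W ↔ w⁻¹ * v ∈ C) :
    ∃ v, v ∉ W ∧ ∀ N : ℕ, (T ^ N) v = v → T ^ N = 1 := by
  obtain ⟨C, hC⟩ := hWC
  have hne : (Wᶜ : Set V).Nonempty := Set.nonempty_compl.2 hW
  obtain ⟨v, hv, hmax⟩ := Set.exists_max_image (Wᶜ : Set V) (fun v => minimalPeriod T v)
    (Set.toFinite _) hne
  refine ⟨v, hv, ?_⟩
  intro N hN
  by_contra hTN
  set k := minimalPeriod T v with hk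
  have hit : ∀ (x : V) (n : ℕ), (T ^ n) x = x ↔ minimalPeriod T x ∣ n := by
    intro x n
    rw [← isPeriodicPt_iff_minimalPeriod_dvd]
    unfold IsPeriodicPt IsFixedPt
    rw [← Equiv.Perm.iterate_eq_pow]
  have hkN : k ∣ N := (hit v N).1 hN
  have hRv : (T ^ k) v = v := (hit v k).2 dvd_rfl
  have hR : Aff (T ^ k) (τ ^ k) := hT.pow k
  set ρ := τ ^ k with hρ
  have hρm : ρ ^ m = 1 := by
    ext u
    have h1 := (hT.pow (k * m)) v u
    have h2 : T ^ (k * m) = 1 := by rw [mul_comm, pow_mul, hm, one_pow]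
    rw [h2, Equiv.Perm.one_apply, Equiv.Perm.one_apply] at h1
    have h3 := mul_left_cancel h1
    rw [hρ, ← pow_mul, MulAut.one_apply]
    exact h3.symm
  -- `ρ` is not the identity
  have hρ1 : ∃ w, ρ w ≠ w := by
    by_contra hcon
    push Not at hcon
    apply hTN
    obtain ⟨j, rfl⟩ := hkN
    rw [pow_mul, hR.eq_one hRv hcon, one_pow]
  obtain ⟨w, hw⟩ := hρ1
  set u : V := w ^ m * (nrm ρ m w)⁻¹ with hu
  have hNu : nrm ρ m u = 1 := by
    rw [hu, map_mul, map_pow, map_inv, nrm_fix m (fix_nrm hρm w), mul_inv_cancel]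
  have hfixN : ∀ c : V, ρ c = c → nrm ρ m c = 1 → c = 1 := by
    intro c h1 h2
    rw [nrm_fix m h1] at h2
    exact pow_cop_one hcop h2
  have hρu : ρ u ≠ u := by
    intro h1
    have h2 := hfixN u h1 hNu
    rw [hu, mul_inv_eq_one] at h2
    have h3 : (ρ w) ^ m = w ^ m := by
      rw [← map_pow, h2, fix_nrm hρm]
    have h4 : (ρ w * w⁻¹) ^ m = 1 := by
      rw [mul_pow, h3, inv_pow, mul_inv_cancel]
    have h5 := pow_cop_one hcop h4
    exact hw (mul_inv_eq_one.1 h5)
  -- `v * u ∉ W`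
  have hWpow : ∀ n : ℕ, ∀ w ∈ W, (T ^ n) w ∈ W := by
    intro n
    induction n with
    | zero => intro w hw; simpa using hw
    | succ n ih =>
      intro w hw
      rw [pow_succ, Equiv.Perm.mul_apply]
      exact ih _ (hWT w hw)
  have hRi : ∀ i : ℕ, (T ^ (k * i)) v = v := fun i => (hit v _).2 (Dvd.intro _ rfl)
  have hvu : v * u ∉ W := by
    intro hmem
    have h1 : ∀ i : ℕ, (v * u)⁻¹ * (v * (ρ ^ i) u) ∈ C := by
      intro i
      have h2 := hWpow (k * i) _ hmem
      rw [(hT.pow (k * i)) v u, hRi i] at h2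
      rw [hC _ hmem] at h2
      rw [hρ, ← pow_mul]
      exact h2
    have h3 : ∏ i ∈ Finset.range m, ((v * u)⁻¹ * (v * (ρ ^ i) u)) ∈ C :=
      Subgroup.prod_mem C (fun i _ => h1 i)
    rw [Finset.prod_mul_distrib, Finset.prod_mul_distrib, ← nrm_apply, hNu, mul_one,
      Finset.prod_const, Finset.prod_const, Finset.card_range, ← mul_pow] at h3
    obtain ⟨j, hj⟩ := pow_cop hcop ((v * u)⁻¹ * v)
    have h4 : (v * u)⁻¹ * v ∈ C := by
      rw [← hj]; exact Subgroup.pow_mem C h3 j
    exact hv ((hC _ hmem v).2 h4)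
  -- its period is larger
  set k' := minimalPeriod T (v * u) with hk'
  have h1 : (T ^ k') (v * u) = v * u := (hit _ _).2 dvd_rfl
  rw [(hT.pow k') v u] at h1
  set c : V := v⁻¹ * (T ^ k') v with hc
  have hcv : (T ^ k') v = v * c := by rw [hc, mul_inv_cancel_left]
  have hcu : c * (τ ^ k') u = u := by
    rw [hcv, mul_assoc] at h1
    exact mul_left_cancel h1
  have hρc : ρ c = c := by
    have h2 := hR v c
    rw [← hcv, hRv, ← Equiv.Perm.mul_apply, ← pow_add, add_comm, pow_add,
      Equiv.Perm.mul_apply, hRv, hcv] at h2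
    exact (mul_left_cancel h2).symm
  have hNc : nrm ρ m c = 1 := by
    have h2 : c = u * ((τ ^ k') u)⁻¹ := eq_mul_inv_of_mul_eq hcu
    rw [h2, map_mul, map_inv, nrm_comm m ((Commute.refl τ).pow_pow k k'), hNu]
    simp
  have hc1 : c = 1 := hfixN c hρc hNc
  rw [hc1, mul_one] at hcv
  rw [hc1, one_mul] at hcu
  have hkk : k ∣ k' := (hit v k').1 hcv
  have hne2 : k' ≠ k := by
    intro h2
    rw [h2] at hcu
    exact hρu hcu
  have hpos : 0 < k' := by
    rw [hk']
    apply minimalPeriod_pos_of_mem_periodicPts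
    refine ⟨m, Nat.pos_of_ne_zero hm0, ?_⟩
    unfold IsPeriodicPt IsFixedPt
    rw [Equiv.Perm.iterate_eq_pow, hm]
    rfl
  have hle := Nat.le_of_dvd hpos hkk
  have hmax2 := hmax (v * u) hvu
  change k' ≤ k at hmax2
  omega

end Abelian

/-! ### Nilpotent groups: the commutator subgroup consists of non-generators -/

section Nil
variable {G : Type} [Group G]

theorem commutator_le_coatom {M : Subgroup G} [M.Normal] (hM : IsCoatom M) :
    commutator G ≤ M := by
  rw [commutator_def, Subgroup.commutator_le]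
  intro a _ b _
  by_cases ha : a ∈ M
  · have h1 : ⁅a, b⁆ = a * (b * a⁻¹ * b⁻¹) := by rw [commutatorElement_def]; group
    rw [h1]
    exact mul_mem ha (Subgroup.Normal.conj_mem ‹_› _ (inv_mem ha) b)
  · have h1 : M ⊔ Subgroup.zpowers a = ⊤ := by
      apply hM.2
      refine lt_of_le_of_ne le_sup_left ?_
      intro h
      apply ha
      rw [h]
      exact (le_sup_right : Subgroup.zpowers a ≤ M ⊔ Subgroup.zpowers a)
        (Subgroup.mem_zpowers a)
    have h2 : (QuotientGroup.mk' M) b ∈ Subgroup.zpowers ((QuotientGroup.mk' M) a) := by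
      have h3 : (QuotientGroup.mk' M) b ∈ (M ⊔ Subgroup.zpowers a).map (QuotientGroup.mk' M) :=
        Subgroup.mem_map_of_mem _ (by rw [h1]; trivial)
      rw [Subgroup.map_sup, MonoidHom.map_zpowers] at h3
      have h4 : M.map (QuotientGroup.mk' M) = ⊥ := by
        rw [Subgroup.map_eq_bot_iff, QuotientGroup.ker_mk']
      rwa [h4, bot_sup_eq] at h3
    obtain ⟨j, hj⟩ := h2
    have h5 : (QuotientGroup.mk' M) ⁅a, b⁆ = 1 := by
      rw [map_commutatorElement, ← hj]
      rw [commutatorElement_eq_one_iff_mul_comm]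
      exact (Commute.refl _).zpow_right j
    rw [← QuotientGroup.ker_mk' M]
    exact h5

theorem eq_top_of_sup_commutator [Finite G] [Group.IsNilpotent G] {C : Subgroup G}
    (h : C ⊔ commutator G = ⊤) : C = ⊤ := by
  by_contra hC
  obtain ⟨M, hM, hCM⟩ := (eq_top_or_exists_le_coatom C).resolve_left hC
  have hn : M.Normal := Subgroup.NormalizerCondition.normal_of_coatom M
    Group.normalizerCondition_of_isNilpotent hM
  have h1 : C ⊔ commutator G ≤ M := sup_le hCM (commutator_le_coatom hM)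
  rw [h] at h1
  exact hM.1 (top_le_iff.1 h1)

/-- The subgroup of the fixed points of an automorphism. -/
def fixSub (α : MulAut G) : Subgroup G where
  carrier := {g | α g = g}
  mul_mem' := by
    intro a b ha hb
    change α (a * b) = a * b
    rw [map_mul, ha, hb]
  one_mem' := map_one α
  inv_mem' := by
    intro a ha
    change α a⁻¹ = a⁻¹
    rw [map_inv, ha]

theorem mem_fixSub {α : MulAut G} {g : G} : g ∈ fixSub α ↔ α g = g := Iff.rfl

/-- The induced affine map of the abelianization. -/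
noncomputable def bar (A : Equiv.Perm G) (α : MulAut G) : Equiv.Perm (Abelianization G) :=
  affineMap (Abelianization.of (A 1)) (MulEquiv.abelianizationCongr α)

theorem bar_of {A : Equiv.Perm G} {α : MulAut G} (h : Aff A α) (x : G) :
    bar A α (Abelianization.of x) = Abelianization.of (A x) := by
  unfold bar
  rw [affineMap_apply]
  have h1 := h 1 x
  rw [one_mul] at h1
  rw [h1, map_mul]
  rfl

theorem bar_pow_of {A : Equiv.Perm G} {α : MulAut G} (h : Aff A α) (n : ℕ) (x : G) :
    ((bar A α) ^ n) (Abelianization.of x) = Abelianization.of ((A ^ n) x) := by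
  induction n generalizing x with
  | zero => simp
  | succ n ih => rw [pow_succ, Equiv.Perm.mul_apply, bar_of h, ih, pow_succ, Equiv.Perm.mul_apply]

theorem of_surj : Function.Surjective (Abelianization.of : G →* Abelianization G) :=
  QuotientGroup.mk_surjective

/-- If the fixed points of an affine map meet every coset of the commutator subgroup, the map is
the identity. -/
theorem eq_one_of_fix [Finite G] [Group.IsNilpotent G] {A : Equiv.Perm G} {α : MulAut G}
    (h : Aff A α) (hfix : ∀ x : G, ∃ y, A y = y ∧ Abelianization.of y = Abelianization.of x) :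
    A = 1 := by
  obtain ⟨x0, hx0, -⟩ := hfix 1
  apply h.eq_one hx0
  have hC : fixSub α = ⊤ := by
    apply eq_top_of_sup_commutator
    rw [eq_top_iff]
    intro g _
    obtain ⟨y, hy, hy2⟩ := hfix (x0 * g)
    have h1 := h x0 (x0⁻¹ * y)
    rw [mul_inv_cancel_left, hy, hx0] at h1
    have h2 : x0⁻¹ * y ∈ fixSub α := by
      rw [mem_fixSub]
      apply mul_left_cancel (a := x0)
      rw [← h1, mul_inv_cancel_left]
    have h3 : (x0⁻¹ * y)⁻¹ * g ∈ commutator G := by
      rw [← Abelianization.ker_of, MonoidHom.mem_ker, map_mul, map_inv, map_mul, map_inv, hy2,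
        map_mul, inv_mul_cancel_left, inv_mul_cancel]
    have h4 : g = (x0⁻¹ * y) * ((x0⁻¹ * y)⁻¹ * g) := by group
    rw [h4]
    exact mul_mem ((le_sup_left : fixSub α ≤ _) h2) ((le_sup_right : commutator G ≤ _) h3)
  intro y
  rw [← mem_fixSub, hC]
  trivial

/-- Faithfulness of the coprime action on the abelianization of a `p`-group. -/
theorem faithful [Finite G] {p : ℕ} [Fact p.Prime] (hG : IsPGroup p G) {A : Equiv.Perm G}
    {α : MulAut G} (h : Aff A α) {m : ℕ} (hm : A ^ m = 1) (hpm : ¬ p ∣ m)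
    (hbar : bar A α = 1) : A = 1 := by
  have hnil : Group.IsNilpotent G := hG.isNilpotent
  by_contra hA
  have hm0 : m ≠ 0 := fun h0 => hpm (h0 ▸ dvd_zero p)
  have ho : orderOf A ≠ 1 := fun h1 => hA (orderOf_eq_one_iff.1 h1)
  obtain ⟨r, hr, hrd⟩ := Nat.exists_prime_and_dvd ho
  have hod : orderOf A ∣ m := orderOf_dvd_of_pow_eq_one hm
  have hrp : r ≠ p := by
    rintro rfl
    exact hpm (hrd.trans hod)
  obtain ⟨s, hs⟩ := hrd
  have hs0 : s ≠ 0 := by
    rintro rfl
    rw [mul_zero] at hs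
    exact hm0 (Nat.eq_zero_of_zero_dvd (hs ▸ hod))
  have hBr : (A ^ s) ^ r = 1 := by rw [← pow_mul, mul_comm, ← hs, pow_orderOf_eq_one]
  have hB1 : A ^ s ≠ 1 := by
    intro h1
    have h2 := orderOf_dvd_of_pow_eq_one h1
    have h3 := Nat.le_of_dvd (Nat.pos_of_ne_zero hs0) h2
    rw [hs] at h3
    have := hr.two_le
    nlinarith [Nat.pos_of_ne_zero hs0]
  apply hB1
  have hfr : Fact r.Prime := ⟨hr⟩
  apply eq_one_of_fix (h.pow s)
  intro x
  have hinv : ∀ y, Abelianization.of ((A ^ s) y) = Abelianization.of y := by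
    intro y
    rw [← bar_pow_of h, hbar, one_pow, Equiv.Perm.one_apply]
  classical
  have : Fintype G := Fintype.ofFinite G
  let S : Type := {y : G // Abelianization.of y = Abelianization.of x}
  have hcard : Fintype.card S = Nat.card (commutator G) := by
    rw [← Nat.card_eq_fintype_card]
    apply Nat.card_congr
    refine ⟨fun y => ⟨x⁻¹ * y.1, ?_⟩, fun c => ⟨x * c.1, ?_⟩, ?_, ?_⟩
    · rw [← Abelianization.ker_of, MonoidHom.mem_ker, map_mul, map_inv, y.2, inv_mul_cancel]
    · have h1 : Abelianization.of c.1 = 1 := by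
        rw [← MonoidHom.mem_ker, Abelianization.ker_of]; exact c.2
      rw [map_mul, h1, mul_one]
    · intro y; apply Subtype.ext; simp
    · intro c; apply Subtype.ext; simp
  have hnd : ¬ r ∣ Fintype.card S := by
    rw [hcard]
    intro h1
    obtain ⟨n, hn⟩ := (IsPGroup.iff_card.1 (hG.to_subgroup (commutator G)))
    rw [hn] at h1
    exact hrp ((Nat.prime_dvd_prime_iff_eq hr Fact.out).1 (hr.dvd_of_dvd_pow h1))
  let σ : Equiv.Perm S := (A ^ s).subtypePerm (fun y => by rw [hinv])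
  have hσ : σ ^ r ^ 1 = 1 := by
    ext y
    rw [pow_one, Equiv.Perm.subtypePerm_pow, Equiv.Perm.subtypePerm_apply]
    exact DFunLike.congr_fun hBr y.1
  obtain ⟨y, hy⟩ := Equiv.Perm.exists_fixed_point_of_prime hnd hσ
  exact ⟨y.1, congrArg Subtype.val hy, y.2⟩

/-- The case of `p`-groups. -/
theorem pgroup_case [Finite G] {p : ℕ} [hp : Fact p.Prime] (hG : IsPGroup p G)
    {A : Equiv.Perm G} {α : MulAut G} (h : Aff A α) :
    ∃ x, ∀ N : ℕ, (A ^ N) x = x → A ^ N = 1 := by
  have hnil : Group.IsNilpotent G := hG.isNilpotent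
  have hn0 : orderOf A ≠ 0 := (orderOf_pos A).ne'
  obtain ⟨a, m, hpm, hn⟩ := Nat.exists_eq_pow_mul_and_not_dvd hn0 p hp.out.ne_one
  have hm0 : m ≠ 0 := fun h0 => hpm (h0 ▸ dvd_zero p)
  set T := A ^ p ^ a with hT
  have hTaff : Aff T (α ^ p ^ a) := h.pow _
  have hTm : T ^ m = 1 := by rw [hT, ← pow_mul, ← hn, pow_orderOf_eq_one]
  -- the forbidden set
  let F : Set G := {x | p ∣ orderOf A ∧ (A ^ (orderOf A / p)) x = x}
  let σ : MulAut G := α ^ (orderOf A / p)
  have hS : Aff (A ^ (orderOf A / p)) σ := h.pow _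
  let W : Set (Abelianization G) := Abelianization.of '' F
  have hFC : ∀ x ∈ F, ∀ y, y ∈ F ↔ x⁻¹ * y ∈ fixSub σ := by
    intro x hx y
    have h1 := hS x (x⁻¹ * y)
    rw [mul_inv_cancel_left, hx.2] at h1
    rw [mem_fixSub]
    constructor
    · intro hy
      rw [hy.2] at h1
      apply mul_left_cancel (a := x)
      rw [← h1, mul_inv_cancel_left]
    · intro hy
      rw [hy, mul_inv_cancel_left] at h1
      exact ⟨hx.1, h1⟩
  have hWC : ∀ w ∈ W, ∀ v, v ∈ W ↔ w⁻¹ * v ∈ (fixSub σ).map Abelianization.of := by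
    rintro _ ⟨x, hx, rfl⟩ v
    constructor
    · rintro ⟨y, hy, rfl⟩
      exact ⟨x⁻¹ * y, (hFC x hx y).1 hy, by rw [map_mul, map_inv]⟩
    · rintro ⟨c, hc, hcv⟩
      refine ⟨x * c, (hFC x hx _).2 (by rwa [inv_mul_cancel_left]), ?_⟩
      rw [map_mul, hcv, mul_inv_cancel_left]
  have hprop : F.Nonempty → fixSub σ ≠ ⊤ := by
    rintro ⟨x, hx⟩ htop
    have h1 : A ^ (orderOf A / p) = 1 := hS.eq_one hx.2 (fun y => by
      rw [← mem_fixSub, htop]; trivial)
    have h2 := orderOf_dvd_of_pow_eq_one h1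
    have h3 : 0 < orderOf A / p := Nat.div_pos (Nat.le_of_dvd (Nat.pos_of_ne_zero hn0) hx.1)
      hp.out.pos
    have h4 := Nat.le_of_dvd h3 h2
    have h5 := Nat.div_lt_self (Nat.pos_of_ne_zero hn0) hp.out.one_lt
    omega
  have hW : W ≠ Set.univ := by
    intro hun
    have h1 : (1 : Abelianization G) ∈ W := hun ▸ Set.mem_univ _
    obtain ⟨x, hx, -⟩ := h1
    apply hprop ⟨x, hx⟩
    apply eq_top_of_sup_commutator
    rw [eq_top_iff]
    intro g _
    have h2 : Abelianization.of x * Abelianization.of g ∈ W := hun ▸ Set.mem_univ _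
    rw [hWC _ ⟨x, hx, rfl⟩, inv_mul_cancel_left] at h2
    obtain ⟨c, hc, hcg⟩ := h2
    have h3 : c⁻¹ * g ∈ commutator G := by
      rw [← Abelianization.ker_of, MonoidHom.mem_ker, map_mul, map_inv, hcg, inv_mul_cancel]
    have h4 : g = c * (c⁻¹ * g) := by group
    rw [h4]
    exact mul_mem ((le_sup_left : fixSub σ ≤ _) hc) ((le_sup_right : commutator G ≤ _) h3)
  have hbT : Aff (bar T (α ^ p ^ a)) (MulEquiv.abelianizationCongr (α ^ p ^ a)) :=
    Aff.affineMap _ _
  have hWT : ∀ w ∈ W, bar T (α ^ p ^ a) w ∈ W := by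
    rintro _ ⟨x, hx, rfl⟩
    rw [bar_of hTaff]
    refine ⟨T x, ⟨hx.1, ?_⟩, rfl⟩
    rw [hT, ← Equiv.Perm.mul_apply, ← pow_add, add_comm, pow_add, Equiv.Perm.mul_apply, hx.2]
  have hbar_one : ∀ N, T ^ N = 1 → (bar T (α ^ p ^ a)) ^ N = 1 := by
    intro N hN
    ext v
    obtain ⟨x, rfl⟩ := of_surj v
    rw [bar_pow_of hTaff, hN]
    rfl
  have hcard : Nat.Coprime m (Nat.card (Abelianization G)) := by
    have h1 : IsPGroup p (Abelianization G) := hG.to_quotient _
    obtain ⟨e, he⟩ := IsPGroup.iff_card.1 h1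
    rw [he]
    exact Nat.Coprime.pow_right e ((hp.out.coprime_iff_not_dvd.2 hpm).symm)
  obtain ⟨v, hv, hper⟩ := abelian_case hbT (hbar_one m hTm) hcard hm0 hW hWT ⟨_, hWC⟩
  obtain ⟨x, rfl⟩ := of_surj v
  have hxF : x ∉ F := fun hx => hv ⟨x, hx, rfl⟩
  have hxT : ∀ N : ℕ, (T ^ N) x = x → T ^ N = 1 := by
    intro N hN
    have h1 : (bar T (α ^ p ^ a)) ^ N = 1 := by
      apply hper
      rw [bar_pow_of hTaff, hN]
    apply faithful hG (hTaff.pow N) (m := m) _ hpm
    · ext w
      obtain ⟨y, rfl⟩ := of_surj w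
      rw [bar_of (hTaff.pow N), ← bar_pow_of hTaff, h1]
    · rw [← pow_mul, mul_comm, pow_mul, hTm, one_pow]
  refine ⟨x, ?_⟩
  intro N hN
  have hit : ∀ n : ℕ, (A ^ n) x = x ↔ minimalPeriod A x ∣ n := by
    intro n
    rw [← isPeriodicPt_iff_minimalPeriod_dvd]
    unfold IsPeriodicPt IsFixedPt
    rw [← Equiv.Perm.iterate_eq_pow]
  set k := minimalPeriod A x with hk
  have hkN : k ∣ N := (hit N).1 hN
  have hkn : k ∣ orderOf A := (hit _).1 (by rw [pow_orderOf_eq_one]; rfl)
  suffices hkeq : k = orderOf A by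
    rw [← orderOf_dvd_iff_pow_eq_one, ← hkeq]
    exact hkN
  obtain ⟨j, hj⟩ := hkn
  by_contra hne
  have hj1 : j ≠ 1 := by
    rintro rfl
    rw [mul_one] at hj
    exact hne hj.symm
  obtain ⟨r, hr, j', rfl⟩ := Nat.exists_prime_and_dvd hj1
  have hfix : (A ^ (k * j')) x = x := (hit _).2 (Dvd.intro _ rfl)
  have hndiv : orderOf A / r = k * j' := by
    rw [hj]
    have : k * (r * j') = k * j' * r := by ring
    rw [this, Nat.mul_div_cancel _ hr.pos]
  have hkj0 : k * j' ≠ 0 := by
    intro h0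
    apply hn0
    rw [hj]
    have : k * (r * j') = k * j' * r := by ring
    rw [this, h0, zero_mul]
  have hne1 : A ^ (k * j') ≠ 1 := by
    intro h1
    have h2 := Nat.le_of_dvd (Nat.pos_of_ne_zero hkj0) (orderOf_dvd_of_pow_eq_one h1)
    rw [hj] at h2
    have := hr.two_le
    have h3 : k * (r * j') = k * j' * r := by ring
    rw [h3] at h2
    nlinarith [Nat.pos_of_ne_zero hkj0]
  by_cases hrp : r = p
  · subst hrp
    apply hxF
    refine ⟨?_, ?_⟩
    · rw [hj]; exact ⟨k * j', by ring⟩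
    · rw [hndiv]; exact hfix
  · -- `r` divides `m`
    have hrm : r ∣ m := by
      have h1 : r ∣ p ^ a * m := by rw [← hn, hj]; exact ⟨k * j', by ring⟩
      rcases (hr.dvd_mul).1 h1 with h2 | h2
      · exact absurd ((Nat.prime_dvd_prime_iff_eq hr hp.out).1 (hr.dvd_of_dvd_pow h2)) hrp
      · exact h2
    obtain ⟨m', rfl⟩ := hrm
    have h1 : p ^ a * m' = k * j' := by
      have h2 : r * (p ^ a * m') = r * (k * j') := by
        calc r * (p ^ a * m') = p ^ a * (r * m') := by ring
          _ = orderOf A := hn.symm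
          _ = r * (k * j') := by rw [hj]; ring
      exact Nat.eq_of_mul_eq_mul_left hr.pos h2
    apply hne1
    rw [← h1, pow_mul]
    apply hxT
    rw [hT, ← pow_mul, h1]
    exact hfix

end Nil

/-! ### Products -/

/-- Each affine map of `G` has a cycle of full length. -/
def Good (G : Type) [Group G] : Prop :=
  ∀ (A : Equiv.Perm G) (α : MulAut G), Aff A α → ∃ x, ∀ N : ℕ, (A ^ N) x = x → A ^ N = 1

theorem Good.of_equiv {G H : Type} [Group G] [Group H] (e : G ≃* H) (hG : Good G) : Good H := by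
  intro A α h
  let A' : Equiv.Perm G := (e.toEquiv.trans A).trans e.symm.toEquiv
  let α' : MulAut G := (e.trans α).trans e.symm
  have h' : Aff A' α' := by
    intro x y
    change e.symm (A (e (x * y))) = e.symm (A (e x)) * e.symm (α (e y))
    rw [map_mul, h, map_mul]
  have hpow : ∀ (N : ℕ) (x : G), e ((A' ^ N) x) = (A ^ N) (e x) := by
    intro N
    induction N with
    | zero => intro x; rfl
    | succ N ih =>
      intro x
      rw [pow_succ, Equiv.Perm.mul_apply, ih, pow_succ, Equiv.Perm.mul_apply]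
      congr 1
      exact e.apply_symm_apply _
  obtain ⟨x, hx⟩ := hG A' α' h'
  refine ⟨e x, ?_⟩
  intro N hN
  rw [← hpow] at hN
  have h1 := hx N (e.injective hN)
  ext y
  have h2 := hpow N (e.symm y)
  rw [h1, Equiv.Perm.one_apply, e.apply_symm_apply] at h2
  exact h2.symm

theorem Good.pi {ι : Type} [Fintype ι] [DecidableEq ι] {H : ι → Type} [∀ i, Group (H i)]
    [∀ i, Finite (H i)]
    (hcop : ∀ i j, i ≠ j → Nat.Coprime (Nat.card (H i)) (Nat.card (H j)))
    (hH : ∀ i, Good (H i)) : Good (∀ i, H i) := by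
  intro A α h
  have key : ∀ (β : MulAut (∀ i, H i)) (i : ι) (y : ∀ i, H i), y i = 1 → (β y) i = 1 := by
    intro β i y hy
    set M := ∏ j ∈ Finset.univ.erase i, Nat.card (H j) with hM
    have h1 : y ^ M = 1 := by
      funext j
      rw [Pi.pow_apply, Pi.one_apply]
      by_cases hj : j = i
      · subst hj; rw [hy, one_pow]
      · have h2 : Nat.card (H j) ∣ M :=
          Finset.dvd_prod_of_mem (fun j => Nat.card (H j))
            (Finset.mem_erase.2 ⟨hj, Finset.mem_univ j⟩)
        obtain ⟨c, hc⟩ := h2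
        rw [hc, pow_mul, pow_card_eq_one', one_pow]
    have h2 : (β y i) ^ M = 1 := by
      rw [← Pi.pow_apply, ← map_pow, h1, map_one, Pi.one_apply]
    have h3 : Nat.Coprime M (Nat.card (H i)) := by
      rw [hM]
      apply Nat.Coprime.prod_left
      intro j hj
      exact hcop j i (Finset.ne_of_mem_erase hj)
    have h4 : Nat.Coprime M (orderOf (β y i)) :=
      h3.coprime_dvd_right (orderOf_dvd_natCard _)
    have h5 : orderOf (β y i) ∣ M := orderOf_dvd_of_pow_eq_one h2
    have h6 : orderOf (β y i) = 1 := h4.symm.eq_one_of_dvd h5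
    exact orderOf_eq_one_iff.1 h6
  have key2 : ∀ (β : MulAut (∀ i, H i)) (i : ι) (x : ∀ i, H i),
      (β x) i = (β (Pi.mulSingle i (x i))) i := by
    intro β i x
    have h1 : x = Pi.mulSingle i (x i) * ((Pi.mulSingle i (x i))⁻¹ * x) := by group
    conv_lhs => rw [h1, map_mul, Pi.mul_apply]
    rw [key β i ((Pi.mulSingle i (x i))⁻¹ * x) (by simp), mul_one]
  let αi : ∀ i, MulAut (H i) := fun i =>
    { toFun := fun h => (α (Pi.mulSingle i h)) i
      invFun := fun h => (α⁻¹ (Pi.mulSingle i h)) i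
      left_inv := by
        intro h
        dsimp only
        rw [← key2 α⁻¹ i, MulAut.inv_apply_self, Pi.mulSingle_eq_same]
      right_inv := by
        intro h
        dsimp only
        rw [← key2 α i, MulAut.apply_inv_self, Pi.mulSingle_eq_same]
      map_mul' := by
        intro a b
        rw [Pi.mulSingle_mul, map_mul, Pi.mul_apply] }
  let Ai : ∀ i, Equiv.Perm (H i) := fun i => affineMap ((A 1) i) (αi i)
  have hAi : ∀ (x : ∀ i, H i) (i : ι), (A x) i = Ai i (x i) := by
    intro x i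
    have h1 := h 1 x
    rw [one_mul] at h1
    rw [h1, Pi.mul_apply, key2 α i x]
    rfl
  have hpow : ∀ (N : ℕ) (x : ∀ i, H i) (i : ι), ((A ^ N) x) i = ((Ai i) ^ N) (x i) := by
    intro N
    induction N with
    | zero => intro x i; rfl
    | succ N ih =>
      intro x i
      rw [pow_succ, Equiv.Perm.mul_apply, ih, hAi, pow_succ, Equiv.Perm.mul_apply]
  choose x hx using fun i => hH i (Ai i) (αi i) (Aff.affineMap _ _)
  refine ⟨x, ?_⟩
  intro N hN
  ext y i
  rw [hpow, hx i N (by rw [← hpow, hN])]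
  rfl

/-- The main theorem: an affine map of a finite nilpotent group has a cycle of full length. -/
theorem good_of_nilpotent (G : Type) [Group G] [Finite G] [Group.IsNilpotent G] : Good G := by
  classical
  obtain ⟨e⟩ := ((Group.isNilpotent_of_finite_tfae (G := G)).out 0 4).mp ‹_›
  apply Good.of_equiv e
  have hpg : ∀ p : (Nat.card G).primeFactors,
      IsPGroup (p : ℕ) (∀ P : Sylow p G, (P : Subgroup G)) := by
    intro p f
    have h1 : ∀ P : Sylow p G, ∃ k : ℕ, (f P) ^ ((p : ℕ) ^ k) = 1 := fun P => P.isPGroup' (f P)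
    choose k hk using h1
    have hft : Fintype (Sylow p G) := Fintype.ofFinite _
    refine ⟨∑ P, k P, ?_⟩
    funext P
    rw [Pi.pow_apply, Pi.one_apply]
    have h2 : k P ≤ ∑ P, k P := Finset.single_le_sum (f := k) (fun _ _ => Nat.zero_le _)
      (Finset.mem_univ P)
    obtain ⟨c, hc⟩ := pow_dvd_pow (p : ℕ) h2
    rw [hc, pow_mul, hk, one_pow]
  apply Good.pi
  · intro p q hpq
    have hp : Fact (p : ℕ).Prime := ⟨Nat.prime_of_mem_primeFactors p.2⟩
    have hq : Fact (q : ℕ).Prime := ⟨Nat.prime_of_mem_primeFactors q.2⟩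
    obtain ⟨a, ha⟩ := IsPGroup.iff_card.1 (hpg p)
    obtain ⟨b, hb⟩ := IsPGroup.iff_card.1 (hpg q)
    rw [ha, hb]
    apply Nat.Coprime.pow
    exact (Nat.coprime_primes hp.out hq.out).2 (fun h => hpq (Subtype.ext h))
  · intro p
    have hp : Fact (p : ℕ).Prime := ⟨Nat.prime_of_mem_primeFactors p.2⟩
    intro A α h
    exact pgroup_case (hpg p) h

/-- An affine map of a finite nilpotent group has a cycle whose length is the order of the map. -/
theorem exists_full_cycle (G : Type) [Group G] [Finite G] [Group.IsNilpotent G] (t : G)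
    (α : MulAut G) : ∃ x : G, minimalPeriod (affineMap t α) x = orderOf (affineMap t α) := by
  obtain ⟨x, hx⟩ := good_of_nilpotent G (affineMap t α) α (Aff.affineMap t α)
  refine ⟨x, Nat.dvd_antisymm ?_ ?_⟩
  · rw [← isPeriodicPt_iff_minimalPeriod_dvd]
    unfold IsPeriodicPt IsFixedPt
    rw [Equiv.Perm.iterate_eq_pow, pow_orderOf_eq_one]
    rfl
  · apply orderOf_dvd_of_pow_eq_one
    apply hx
    rw [← Equiv.Perm.iterate_eq_pow]
    exact isPeriodicPt_minimalPeriod _ _

end Pool.Agent.X250.AffNil
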