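import Mathlib

/-!
# The Magnus expansion of the free group of rank three, truncated in degree four

`M3` is the group of formal sums `1 + ∑ lᵢ Xᵢ + ∑ qᵢⱼ XᵢXⱼ + ∑ cᵢⱼₖ XᵢXⱼXₖ` in non-commuting
variables modulo degree four, and `mu : FreeGroup (Fin 3) →* M3` sends `xᵢ` to `1 + Xᵢ`.
-/

set_option autoImplicit false

namespace Pool.Agent.X250.Magnus

/-- Truncated non-commutative power series in three variables with constant term `1`. -/
@[ext] structure M3 where
  l : Fin 3 → ℤ
  q : Fin 3 → Fin 3 → ℤ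
  c : Fin 3 → Fin 3 → Fin 3 → ℤ

instance : Mul M3 := ⟨fun x y => ⟨fun i => x.l i + y.l i,
  fun i j => x.q i j + y.q i j + x.l i * y.l j,
  fun i j k => x.c i j k + y.c i j k + x.l i * y.q j k + x.q i j * y.l k⟩⟩

instance : One M3 := ⟨⟨fun _ => 0, fun _ _ => 0, fun _ _ _ => 0⟩⟩

instance : Inv M3 := ⟨fun x => ⟨fun i => - x.l i, fun i j => - x.q i j + x.l i * x.l j,
  fun i j k => - x.c i j k + x.l i * x.q j k + x.q i j * x.l k - x.l i * x.l j * x.l k⟩⟩

theorem mul_l (x y : M3) (i : Fin 3) : (x * y).l i = x.l i + y.l i := rfl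
theorem mul_q (x y : M3) (i j : Fin 3) : (x * y).q i j = x.q i j + y.q i j + x.l i * y.l j := rfl
theorem mul_c (x y : M3) (i j k : Fin 3) :
    (x * y).c i j k = x.c i j k + y.c i j k + x.l i * y.q j k + x.q i j * y.l k := rfl
theorem one_l (i : Fin 3) : (1 : M3).l i = 0 := rfl
theorem one_q (i j : Fin 3) : (1 : M3).q i j = 0 := rfl
theorem one_c (i j k : Fin 3) : (1 : M3).c i j k = 0 := rfl
theorem inv_l (x : M3) (i : Fin 3) : (x⁻¹).l i = - x.l i := rfl
theorem inv_q (x : M3) (i j : Fin 3) : (x⁻¹).q i j = - x.q i j + x.l i * x.l j := rfl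
theorem inv_c (x : M3) (i j k : Fin 3) : (x⁻¹).c i j k =
    - x.c i j k + x.l i * x.q j k + x.q i j * x.l k - x.l i * x.l j * x.l k := rfl

instance : Group M3 := Group.ofLeftAxioms
  (by intro x y z; ext <;> simp only [mul_l, mul_q, mul_c] <;> ring)
  (by intro x; ext <;> simp only [mul_l, mul_q, mul_c, one_l, one_q, one_c] <;> ring)
  (by intro x; ext <;> simp only [mul_l, mul_q, mul_c, one_l, one_q, one_c, inv_l, inv_q, inv_c]
        <;> ring)

/-- `1 + Xᵢ`. -/
def gen (i : Fin 3) : M3 := ⟨Pi.single i 1, fun _ _ => 0, fun _ _ _ => 0⟩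

/-- The truncated Magnus expansion. -/
def mu : FreeGroup (Fin 3) →* M3 := FreeGroup.lift gen

theorem mu_of (i : Fin 3) : mu (FreeGroup.of i) = gen i := by simp [mu]

/-- The linear part as a homomorphism. -/
def lhom : M3 →* Multiplicative (Fin 3 → ℤ) where
  toFun x := Multiplicative.ofAdd x.l
  map_one' := rfl
  map_mul' _ _ := rfl

/-- The endomorphism of `M3` induced by the substitution `Xᵢ ↦ Xᵢ + Qᵢ + Cᵢ`. -/
def hat (Q : Fin 3 → Fin 3 → Fin 3 → ℤ) (C : Fin 3 → Fin 3 → Fin 3 → Fin 3 → ℤ) : M3 →* M3 where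
  toFun x := ⟨x.l, fun i j => x.q i j + ∑ a, x.l a * Q a i j,
    fun i j k => x.c i j k + ∑ a, x.l a * C a i j k + ∑ a, x.q a k * Q a i j +
      ∑ b, x.q i b * Q b j k⟩
  map_one' := by
    ext <;> simp [one_l, one_q, one_c]
  map_mul' x y := by
    ext i j k
    · rfl
    · simp only [mul_q, mul_l, Fin.sum_univ_three]; ring
    · simp only [mul_q, mul_l, mul_c, Fin.sum_univ_three]; ring

/-- The coefficients satisfy the shuffle relations of degree two. -/
theorem shuffle (w : FreeGroup (Fin 3)) (i j : Fin 3) :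
    (mu w).q i j + (mu w).q j i + (if i = j then (mu w).l i else 0) =
      (mu w).l i * (mu w).l j := by
  induction w using FreeGroup.induction_on with
  | C1 => simp [one_l, one_q]
  | of x =>
    rw [mu_of]
    fin_cases x <;> fin_cases i <;> fin_cases j <;> simp [gen]
  | inv_of x h =>
    rw [map_inv, mu_of]
    fin_cases x <;> fin_cases i <;> fin_cases j <;> simp [gen, inv_q, inv_l]
  | mul x y hx hy =>
    rw [map_mul, mul_q, mul_q, mul_l, mul_l]
    split_ifs at hx hy ⊢ with h
    · subst h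
      linear_combination hx + hy
    · linear_combination hx + hy

end Pool.Agent.X250.Magnus
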