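import Pool.Agent.X250.QuadLie
import Pool.Agent.X250.Magnus3

/-!
# The associated Lie ring of `IA_3` is not quadratically presented
-/

set_option autoImplicit false

namespace Pool.Agent.X250.Quad

open BurnLie Pool.Agent.X250.Magnus
open scoped commutatorElement

theorem mem_IA {n : ℕ} {φ : MulAut (FreeGroup (Fin n))} :
    φ ∈ IA n ↔ ∀ x, Abelianization.of (φ x) = Abelianization.of x := Iff.rfl

/-- `F_3` -/
abbrev F3 : Type := FreeGroup (Fin 3)

/-- The quadratic Magnus coefficients of `φ(xᵢ)`. -/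
def Q (φ : MulAut F3) (i j k : Fin 3) : ℤ := (mu (φ (FreeGroup.of i))).q j k

/-- The cubic Magnus coefficients of `φ(xᵢ)`. -/
def C (φ : MulAut F3) (i j k l : Fin 3) : ℤ := (mu (φ (FreeGroup.of i))).c j k l

theorem l_eq {φ : MulAut F3} (hφ : φ ∈ IA 3) (x : F3) : (mu (φ x)).l = (mu x).l := by
  have h1 : ∀ y : F3, Multiplicative.ofAdd (mu y).l =
      Abelianization.lift (lhom.comp mu) (Abelianization.of y) := by
    intro y
    rw [Abelianization.lift_apply_of]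
    rfl
  have h2 := (h1 (φ x)).trans ((congrArg _ (hφ x)).trans (h1 x).symm)
  exact Multiplicative.ofAdd.injective h2

theorem hat_mu {φ : MulAut F3} (hφ : φ ∈ IA 3) (x : F3) :
    mu (φ x) = hat (Q φ) (C φ) (mu x) := by
  have h : mu.comp φ.toMonoidHom = (hat (Q φ) (C φ)).comp mu := by
    ext i : 1
    change mu (φ (FreeGroup.of i)) = hat (Q φ) (C φ) (mu (FreeGroup.of i))
    rw [mu_of]
    ext a b c
    · rw [l_eq hφ, mu_of]; rfl
    · change _ = (gen i).q a b + ∑ a', (gen i).l a' * Q φ a' a b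
      simp [gen, Q, Pi.single_apply]
    · change _ = (gen i).c a b c + ∑ a', (gen i).l a' * C φ a' a b c +
        ∑ a', (gen i).q a' c * Q φ a' a b + ∑ b', (gen i).q a b' * Q φ b' b c
      simp [gen, C, Pi.single_apply]
  exact DFunLike.congr_fun h x

theorem l_single {φ : MulAut F3} (hφ : φ ∈ IA 3) (i : Fin 3) :
    (mu (φ (FreeGroup.of i))).l = Pi.single i 1 := by
  rw [l_eq hφ, mu_of]; rfl

theorem Q_mul {φ ψ : MulAut F3} (hφ : φ ∈ IA 3) (hψ : ψ ∈ IA 3) (i j k : Fin 3) :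
    Q (φ * ψ) i j k = Q φ i j k + Q ψ i j k := by
  change (mu (φ (ψ (FreeGroup.of i)))).q j k = _
  rw [hat_mu hφ]
  change (mu (ψ (FreeGroup.of i))).q j k + ∑ a, (mu (ψ (FreeGroup.of i))).l a * Q φ a j k = _
  rw [l_single hψ]
  simp [Pi.single_apply, Q, add_comm]

theorem C_mul {φ ψ : MulAut F3} (hφ : φ ∈ IA 3) (hψ : ψ ∈ IA 3) (i j k l : Fin 3) :
    C (φ * ψ) i j k l = C φ i j k l + C ψ i j k l + ∑ a, Q ψ i a l * Q φ a j k +
      ∑ b, Q ψ i j b * Q φ b k l := by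
  change (mu (φ (ψ (FreeGroup.of i)))).c j k l = _
  rw [hat_mu hφ]
  change (mu (ψ (FreeGroup.of i))).c j k l + ∑ a, (mu (ψ (FreeGroup.of i))).l a * C φ a j k l +
    ∑ a, (mu (ψ (FreeGroup.of i))).q a l * Q φ a j k +
      ∑ b, (mu (ψ (FreeGroup.of i))).q j b * Q φ b k l = _
  rw [l_single hψ]
  simp [Pi.single_apply, Q, C, add_comm]

theorem Q_anti {φ : MulAut F3} (hφ : φ ∈ IA 3) (i j k : Fin 3) :
    Q φ i j k = - Q φ i k j := by
  have h := shuffle (φ (FreeGroup.of i)) j k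
  rw [l_single hφ] at h
  change Q φ i j k + Q φ i k j + _ = _ at h
  have h2 : (if j = k then (Pi.single i 1 : Fin 3 → ℤ) j else 0) =
      (Pi.single i 1 : Fin 3 → ℤ) j * (Pi.single i 1 : Fin 3 → ℤ) k := by
    fin_cases i <;> fin_cases j <;> fin_cases k <;> simp
  linear_combination h - h2

theorem Q_diag {φ : MulAut F3} (hφ : φ ∈ IA 3) (i j : Fin 3) : Q φ i j j = 0 := by
  have := Q_anti hφ i j j
  linarith

/-- The group `IA_3`. -/
abbrev G3 : Type := IA 3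

/-- first linear functional -/
def pa (φ : G3) : ℤ := Q φ.1 0 1 0 - Q φ.1 2 1 2
/-- second linear functional -/
def pb (φ : G3) : ℤ := Q φ.1 0 2 0 - Q φ.1 1 2 1
/-- third linear functional -/
def pc (φ : G3) : ℤ := Q φ.1 0 1 2
/-- first secondary functional -/
def g1 (φ : G3) : ℤ := C φ.1 2 1 2 2 - C φ.1 0 1 2 0 - Q φ.1 0 1 2 * Q φ.1 2 0 2 +
  Q φ.1 0 2 0 * Q φ.1 2 1 2
/-- second secondary functional -/
def g2 (φ : G3) : ℤ := C φ.1 0 1 2 2 + Q φ.1 1 2 1 * Q φ.1 0 1 2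

theorem pa_mul (φ ψ : G3) : pa (φ * ψ) = pa φ + pa ψ := by
  unfold pa
  rw [Subgroup.coe_mul, Q_mul φ.2 ψ.2, Q_mul φ.2 ψ.2]; ring

theorem pb_mul (φ ψ : G3) : pb (φ * ψ) = pb φ + pb ψ := by
  unfold pb
  rw [Subgroup.coe_mul, Q_mul φ.2 ψ.2, Q_mul φ.2 ψ.2]; ring

theorem pc_mul (φ ψ : G3) : pc (φ * ψ) = pc φ + pc ψ := by
  unfold pc
  rw [Subgroup.coe_mul, Q_mul φ.2 ψ.2]

theorem g1_mul (φ ψ : G3) : g1 (φ * ψ) = g1 φ + g1 ψ - pb φ * pa ψ := by
  unfold g1 pa pb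
  rw [Subgroup.coe_mul]
  simp only [Q_mul φ.2 ψ.2, C_mul φ.2 ψ.2, Fin.sum_univ_three, Q_diag φ.2, Q_diag ψ.2]
  linear_combination (Q ψ.1 2 1 2 - Q ψ.1 0 1 0) * (Q_anti φ.2 1 1 2) -
    Q ψ.1 0 1 2 * (Q_anti φ.2 2 2 0)

theorem g2_mul (φ ψ : G3) : g2 (φ * ψ) = g2 φ + g2 ψ - pc φ * pb ψ := by
  unfold g2 pb pc
  rw [Subgroup.coe_mul]
  simp only [Q_mul φ.2 ψ.2, C_mul φ.2 ψ.2, Fin.sum_univ_three, Q_diag φ.2, Q_diag ψ.2]
  linear_combination Q φ.1 0 1 2 * (Q_anti ψ.2 0 0 2) + Q ψ.1 0 1 2 * (Q_anti φ.2 1 1 2)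

/-! ### Secondary functionals on the lower central series -/

section Abstract
variable {G : Type} [Group G]

/-- An additive function vanishes on the derived subgroup. -/
theorem add_lcs {a : G → ℤ} (ha : ∀ x y, a (x * y) = a x + a y) {x : G} (hx : x ∈ lcs G 1) :
    a x = 0 := by
  let f : G →* Multiplicative ℤ :=
    { toFun := fun x => Multiplicative.ofAdd (a x)
      map_one' := by
        have := ha 1 1
        rw [mul_one] at this
        have h : a 1 = 0 := by linarith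
        rw [h]; rfl
      map_mul' := fun x y => by rw [ha]; rfl }
  have h2 : lcs G 1 ≤ f.ker := by
    have : lcs G 1 = commutator G := by
      rw [lcs, Subgroup.top_lowerCentralSeries_one]
    rw [this]
    exact Abelianization.commutator_subset_ker f
  exact Multiplicative.ofAdd.injective (MonoidHom.mem_ker.1 (h2 hx))

theorem add_one {a : G → ℤ} (ha : ∀ x y, a (x * y) = a x + a y) : a 1 = 0 := by
  have := ha 1 1
  rw [mul_one] at this
  linarith

/-- The value on commutators. -/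
theorem sec_comm {a b g : G → ℤ} (ha : ∀ x y, a (x * y) = a x + a y)
    (hb : ∀ x y, b (x * y) = b x + b y) (hg : ∀ x y, g (x * y) = g x + g y - b x * a y)
    (x y : G) : g ⁅x, y⁆ = a x * b y - b x * a y := by
  have h1 : ⁅x, y⁆ * (y * x) = x * y := by
    rw [commutatorElement_def]; group
  have h2 := hg ⁅x, y⁆ (y * x)
  have h3 : b ⁅x, y⁆ = 0 := add_lcs hb
    (lcs_comm_mem (m := 0) (n := 0) (Subgroup.mem_top x) (Subgroup.mem_top y))
  rw [h1, h3, hg, hg] at h2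
  linarith

theorem sec_one {a b g : G → ℤ} (ha : ∀ x y, a (x * y) = a x + a y)
    (hg : ∀ x y, g (x * y) = g x + g y - b x * a y) : g 1 = 0 := by
  have h := hg 1 1
  rw [mul_one, add_one ha] at h
  linarith

theorem sec_mul {a b g : G → ℤ} (hb : ∀ x y, b (x * y) = b x + b y)
    (hg : ∀ x y, g (x * y) = g x + g y - b x * a y) {x y : G} (hx : x ∈ lcs G 1) :
    g (x * y) = g x + g y := by
  rw [hg, add_lcs hb hx]; ring

theorem sec_inv {a b g : G → ℤ} (ha : ∀ x y, a (x * y) = a x + a y)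
    (hb : ∀ x y, b (x * y) = b x + b y)
    (hg : ∀ x y, g (x * y) = g x + g y - b x * a y) {x : G} (hx : x ∈ lcs G 1) :
    g x⁻¹ = - g x := by
  have h := sec_mul hb hg (y := x⁻¹) hx
  rw [mul_inv_cancel, sec_one ha hg] at h
  linarith

/-- The secondary functional vanishes on `Γ₃`. -/
theorem sec_lcs {a b g : G → ℤ} (ha : ∀ x y, a (x * y) = a x + a y)
    (hb : ∀ x y, b (x * y) = b x + b y)
    (hg : ∀ x y, g (x * y) = g x + g y - b x * a y) {x : G} (hx : x ∈ lcs G 2) :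
    g x = 0 := by
  rw [lcs, Subgroup.mem_lowerCentralSeries_succ_iff] at hx
  suffices H : x ∈ lcs G 1 ∧ g x = 0 from H.2
  induction hx using Subgroup.closure_induction with
  | mem w hw =>
    obtain ⟨x, hx, y, -, rfl⟩ := hw
    refine ⟨lcs_anti (m := 1) (n := 2) (by omega)
      (lcs_comm_mem (m := 1) (n := 0) hx (Subgroup.mem_top y)), ?_⟩
    rw [sec_comm ha hb hg, add_lcs ha hx, add_lcs hb hx]; ring
  | one => exact ⟨one_mem _, sec_one ha hg⟩
  | mul w w' _ _ h h' =>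
    refine ⟨mul_mem h.1 h'.1, ?_⟩
    rw [sec_mul hb hg h.1, h.2, h'.2]; ring
  | inv w _ h =>
    refine ⟨inv_mem h.1, ?_⟩
    rw [sec_inv ha hb hg h.1, h.2]; ring

end Abstract

/-- A function turning products into sums as an additive map on `V`. -/
noncomputable def vhom {G : Type} [Group G] (a : G → ℤ) (ha : ∀ x y, a (x * y) = a x + a y) :
    V1 G →+ ℤ :=
  AddMonoidHom.mk' (fun x => a (cls_surj x).choose) (by
    have key : ∀ g h : G, cls g = cls h → a g = a h := by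
      intro g h hgh
      have h1 : (g : G)⁻¹ * h ∈ lcs G 1 := (grMk_eq 0 _ _).1 hgh
      have h2 := add_lcs ha h1
      have h3 := ha g (g⁻¹ * h)
      rw [mul_inv_cancel_left] at h3
      linarith
    intro x y
    rw [← ha]
    apply key
    rw [(cls_surj (x + y)).choose_spec, cls_mul, (cls_surj x).choose_spec,
      (cls_surj y).choose_spec])

theorem vhom_cls {G : Type} [Group G] (a : G → ℤ) (ha : ∀ x y, a (x * y) = a x + a y) (g : G) :
    vhom a ha (cls g) = a g := by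
  change a (cls_surj (cls g)).choose = a g
  have h1 : ((cls_surj (cls g)).choose)⁻¹ * g ∈ lcs G 1 :=
    (grMk_eq 0 _ _).1 (cls_surj (cls g)).choose_spec
  have h2 := add_lcs ha h1
  have h3 := ha (cls_surj (cls g)).choose ((cls_surj (cls g)).choose⁻¹ * g)
  rw [mul_inv_cancel_left] at h3
  linarith

/-- The Lie ring of integer 4 by 4 matrices. -/
abbrev M4 : Type := Matrix (Fin 4) (Fin 4) ℤ

noncomputable instance instM4 : LieRing M4 := LieRing.ofAssociativeRing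

theorem br_M4 (A B : M4) : ⁅A, B⁆ = A * B - B * A := rfl

/-- The additive map `V → M4`. -/
noncomputable def f4 : V1 G3 →+ M4 :=
  AddMonoidHom.mk' (fun v => Matrix.single 0 1 (vhom pa pa_mul v) +
    Matrix.single 1 2 (vhom pb pb_mul v) + Matrix.single 2 3 (vhom pc pc_mul v)) (by
    intro u v
    simp only [map_add, Matrix.single_add]
    abel)

theorem f4_apply (v : V1 G3) : f4 v = Matrix.single 0 1 (vhom pa pa_mul v) +
    Matrix.single 1 2 (vhom pb pb_mul v) + Matrix.single 2 3 (vhom pc pc_mul v) := rfl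

theorem f4_cls (g : G3) : f4 (cls g) = Matrix.single 0 1 (pa g) +
    Matrix.single 1 2 (pb g) + Matrix.single 2 3 (pc g) := by
  rw [f4_apply, vhom_cls, vhom_cls, vhom_cls]

theorem f4_br (g h : G3) : ⁅f4 (cls g), f4 (cls h)⁆ =
    Matrix.single 0 2 (pa g * pb h - pb g * pa h) +
      Matrix.single 1 3 (pb g * pc h - pc g * pb h) := by
  rw [br_M4, f4_cls, f4_cls]
  ext i j
  fin_cases i <;> fin_cases j <;>
    simp [Matrix.mul_apply, Matrix.single_apply] <;> ring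

theorem sing_neg (i j : Fin 4) (x : ℤ) :
    (Matrix.single i j (-x) : M4) = - Matrix.single i j x := by
  ext a b
  simp only [Matrix.single_apply, Matrix.neg_apply]
  split_ifs <;> simp

/-- The Lie ring homomorphism `Φ : L[V] → M4`. -/
noncomputable def Phi : LV (V1 G3) →ₗ⁅ℤ⁆ M4 := liftLV f4

theorem key (z : LV (V1 G3)) (hz : z ∈ deg2 (V1 G3)) :
    ∃ w : lcs G3 1, natMap G3 z = mkL 1 w ∧
      Phi z = Matrix.single 0 2 (g1 w.1) + Matrix.single 1 3 (g2 w.1) := by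
  induction hz using AddSubgroup.closure_induction with
  | mem z hz =>
    obtain ⟨u, v, rfl⟩ := hz
    obtain ⟨g, rfl⟩ := cls_surj u
    obtain ⟨h, rfl⟩ := cls_surj v
    refine ⟨⟨⁅g, h⁆, lcs_comm_mem (m := 0) (n := 0) (Subgroup.mem_top g) (Subgroup.mem_top h)⟩,
      natMap_br g h, ?_⟩
    rw [LieHom.map_lie]
    unfold Phi
    rw [liftLV_ι, liftLV_ι, f4_br, sec_comm pa_mul pb_mul g1_mul, sec_comm pb_mul pc_mul g2_mul]
  | zero =>
    refine ⟨1, by rw [map_zero, mkL_one], ?_⟩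
    rw [map_zero]
    change _ = Matrix.single 0 2 (g1 1) + Matrix.single 1 3 (g2 1)
    rw [sec_one pa_mul g1_mul, sec_one pb_mul g2_mul]
    simp
  | add x y _ _ hx hy =>
    obtain ⟨w, h1, h2⟩ := hx
    obtain ⟨w', h1', h2'⟩ := hy
    refine ⟨w * w', by rw [map_add, h1, h1', mkL_mul], ?_⟩
    rw [map_add, h2, h2', Subgroup.coe_mul, sec_mul pb_mul g1_mul w.2, sec_mul pc_mul g2_mul w.2,
      Matrix.single_add, Matrix.single_add]
    abel
  | neg x _ hx =>
    obtain ⟨w, h1, h2⟩ := hx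
    refine ⟨w⁻¹, by rw [map_neg, h1, mkL_inv], ?_⟩
    rw [map_neg, h2, Subgroup.coe_inv, sec_inv pa_mul pb_mul g1_mul w.2,
      sec_inv pb_mul pc_mul g2_mul w.2, neg_add]
    rw [← sing_neg, ← sing_neg]

/-! ### The cubic relation -/

/-- `x₁, x₂, x₃` -/
abbrev e (i : Fin 3) : F3 := FreeGroup.of i

/-- The endomorphism fixing `x₂, x₃` and sending `x₁` to `w`. -/
def sub1 (w : F3) : F3 →* F3 := FreeGroup.lift ![w, e 1, e 2]

theorem sub1_0 (w : F3) : sub1 w (e 0) = w := by simp [sub1, e]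
theorem sub1_1 (w : F3) : sub1 w (e 1) = e 1 := by simp [sub1, e]
theorem sub1_2 (w : F3) : sub1 w (e 2) = e 2 := by simp [sub1, e]

theorem hom_ext3 {f g : F3 →* F3} (h0 : f (e 0) = g (e 0)) (h1 : f (e 1) = g (e 1))
    (h2 : f (e 2) = g (e 2)) : f = g := by
  ext i
  fin_cases i
  · exact h0
  · exact h1
  · exact h2

/-- An automorphism from a pair of mutually inverse substitutions of `x₁`. -/
def aut1 (w w' : F3) (h : sub1 w w' = e 0) (h' : sub1 w' w = e 0) : MulAut F3 :=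
  MonoidHom.toMulEquiv (sub1 w) (sub1 w')
    (hom_ext3 (by simp only [MonoidHom.comp_apply, sub1_0]; exact h')
      (by simp only [MonoidHom.comp_apply, sub1_1]; rfl)
      (by simp only [MonoidHom.comp_apply, sub1_2]; rfl))
    (hom_ext3 (by simp only [MonoidHom.comp_apply, sub1_0]; exact h)
      (by simp only [MonoidHom.comp_apply, sub1_1]; rfl)
      (by simp only [MonoidHom.comp_apply, sub1_2]; rfl))

theorem aut1_apply (w w' : F3) (h : sub1 w w' = e 0) (h' : sub1 w' w = e 0) (x : F3) :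
    aut1 w w' h h' x = sub1 w x := rfl

theorem aut1_mem (w w' : F3) (h : sub1 w w' = e 0) (h' : sub1 w' w = e 0)
    (hw : Abelianization.of w = Abelianization.of (e 0)) : aut1 w w' h h' ∈ IA 3 := by
  intro x
  rw [aut1_apply]
  have h2 : (Abelianization.of).comp (sub1 w) = (Abelianization.of : F3 →* Abelianization F3) := by
    ext i
    change Abelianization.of (sub1 w (FreeGroup.of i)) = Abelianization.of (FreeGroup.of i)
    fin_cases i
    · exact (congrArg _ (sub1_0 w)).trans hw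
    · exact congrArg _ (sub1_1 w)
    · exact congrArg _ (sub1_2 w)
  exact DFunLike.congr_fun h2 x

theorem mulAut_ext3 {φ ψ : MulAut F3} (h0 : φ (e 0) = ψ (e 0)) (h1 : φ (e 1) = ψ (e 1))
    (h2 : φ (e 2) = ψ (e 2)) : φ = ψ := by
  have h : φ.toMonoidHom = ψ.toMonoidHom := hom_ext3 h0 h1 h2
  ext x
  exact DFunLike.congr_fun h x

/-- `x₁ ↦ x₂ x₁ x₂⁻¹` -/
def K12 : MulAut F3 := aut1 (e 1 * e 0 * (e 1)⁻¹) ((e 1)⁻¹ * e 0 * e 1)
  (by simp only [map_mul, map_inv, sub1_0, sub1_1]; group)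
  (by simp only [map_mul, map_inv, sub1_0, sub1_1]; group)

/-- `x₁ ↦ x₃ x₁ x₃⁻¹` -/
def K13 : MulAut F3 := aut1 (e 2 * e 0 * (e 2)⁻¹) ((e 2)⁻¹ * e 0 * e 2)
  (by simp only [map_mul, map_inv, sub1_0, sub1_2]; group)
  (by simp only [map_mul, map_inv, sub1_0, sub1_2]; group)

/-- `u = x₃⁻¹ x₂⁻¹ x₃ x₂` -/
def u : F3 := (e 2)⁻¹ * (e 1)⁻¹ * e 2 * e 1

theorem sub1_u (w : F3) : sub1 w u = u := by
  simp only [u, map_mul, map_inv, sub1_1, sub1_2]

/-- `x₁ ↦ x₁ u` -/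
def Mu : MulAut F3 := aut1 (e 0 * u) (e 0 * u⁻¹)
  (by simp only [map_mul, map_inv, sub1_0, sub1_u]; group)
  (by simp only [map_mul, map_inv, sub1_0, sub1_u]; group)

/-- `x₁ ↦ u x₁ u⁻¹` -/
def Cu : MulAut F3 := aut1 (u * e 0 * u⁻¹) (u⁻¹ * e 0 * u)
  (by simp only [map_mul, map_inv, sub1_0, sub1_u]; group)
  (by simp only [map_mul, map_inv, sub1_0, sub1_u]; group)

theorem K12_apply (x : F3) : K12 x = sub1 (e 1 * e 0 * (e 1)⁻¹) x := rfl
theorem K13_apply (x : F3) : K13 x = sub1 (e 2 * e 0 * (e 2)⁻¹) x := rfl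
theorem Mu_apply (x : F3) : Mu x = sub1 (e 0 * u) x := rfl
theorem Cu_apply (x : F3) : Cu x = sub1 (u * e 0 * u⁻¹) x := rfl

theorem K12_mem : K12 ∈ IA 3 := aut1_mem _ _ _ _ (by
  simp only [map_mul, map_inv]; rw [mul_comm, ← mul_assoc, inv_mul_cancel, one_mul])

theorem K13_mem : K13 ∈ IA 3 := aut1_mem _ _ _ _ (by
  simp only [map_mul, map_inv]; rw [mul_comm, ← mul_assoc, inv_mul_cancel, one_mul])

theorem of_u : Abelianization.of u = 1 := by
  simp only [u, map_mul, map_inv]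
  rw [mul_comm (Abelianization.of (e 2))⁻¹ (Abelianization.of (e 1))⁻¹, inv_mul_cancel_right,
    inv_mul_cancel]

theorem Mu_mem : Mu ∈ IA 3 := aut1_mem _ _ _ _ (by rw [map_mul, of_u, mul_one])

theorem comm_K : ⁅K12, K13⁆ = Cu := by
  have h : K12 * K13 = Cu * (K13 * K12) := by
    apply mulAut_ext3 <;> simp only [MulAut.mul_apply, K12_apply, K13_apply, Cu_apply, map_mul,
      map_inv, sub1_0, sub1_1, sub1_2, u]
    group
  rw [commutatorElement_def, mul_assoc, ← mul_inv_rev, mul_inv_eq_iff_eq_mul, h]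

theorem Cu_Mu : Cu * Mu = Mu * Cu := by
  apply mulAut_ext3 <;> simp only [MulAut.mul_apply, Mu_apply, Cu_apply, map_mul,
    map_inv, sub1_0, sub1_1, sub1_2, sub1_u]
  group

/-- The three elements of `IA_3`. -/
def k12 : G3 := ⟨K12, K12_mem⟩
/-- The class of `x₁ ↦ x₃ x₁ x₃⁻¹`. -/
def k13 : G3 := ⟨K13, K13_mem⟩
/-- The class of `x₁ ↦ x₁ u`. -/
def mm : G3 := ⟨Mu, Mu_mem⟩

theorem comm_rel : ⁅⁅k12, k13⁆, mm⁆ = 1 := by
  have h : (⁅⁅k12, k13⁆, mm⁆ : G3).1 = ⁅⁅K12, K13⁆, Mu⁆ := rfl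
  apply Subtype.ext
  rw [h, comm_K, commutatorElement_def, Cu_Mu]
  simp

theorem mu_e (i : Fin 3) : mu (e i) = gen i := mu_of i

theorem p_k12 : pa k12 = 1 ∧ pb k12 = 0 ∧ pc k12 = 0 := by
  have h : ∀ i, (k12.1 (FreeGroup.of i)) = sub1 (e 1 * e 0 * (e 1)⁻¹) (e i) := fun _ => rfl
  unfold pa pb pc Q
  simp only [h, sub1_0, sub1_1, sub1_2, map_mul, map_inv, mu_e]
  simp [mul_q, mul_l, inv_q, inv_l, gen]

theorem p_k13 : pa k13 = 0 ∧ pb k13 = 1 ∧ pc k13 = 0 := by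
  have h : ∀ i, (k13.1 (FreeGroup.of i)) = sub1 (e 2 * e 0 * (e 2)⁻¹) (e i) := fun _ => rfl
  unfold pa pb pc Q
  simp only [h, sub1_0, sub1_1, sub1_2, map_mul, map_inv, mu_e]
  simp [mul_q, mul_l, inv_q, inv_l, gen]

theorem p_mm : pa mm = 0 ∧ pb mm = 0 ∧ pc mm = -1 := by
  have h : ∀ i, (mm.1 (FreeGroup.of i)) = sub1 (e 0 * u) (e i) := fun _ => rfl
  unfold pa pb pc Q
  simp only [h, sub1_0, sub1_1, sub1_2, u, map_mul, map_inv, mu_e]
  simp [mul_q, mul_l, inv_q, inv_l, gen]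

/-- The cubic element of `L[V]`. -/
noncomputable def x0 : LV (V1 G3) := ⁅⁅ι _ (cls k12), ι _ (cls k13)⁆, ι _ (cls mm)⁆

theorem natMap_x0 : natMap G3 x0 = 0 := by
  unfold x0
  rw [LieHom.map_lie, natMap_br, natMap_cls]
  have h := lieHom_mkL 1 0 (⟨⁅k12, k13⁆, lcs_comm_mem (m := 0) (n := 0)
    (Subgroup.mem_top k12) (Subgroup.mem_top k13)⟩ : lcs G3 1) ⟨mm, Subgroup.mem_top mm⟩
  refine h.trans ?_
  rw [mkL_eq_zero]
  change ⁅⁅k12, k13⁆, mm⁆ ∈ _
  rw [comm_rel]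
  exact one_mem _

theorem Phi_x0 : Phi x0 ≠ 0 := by
  have h : Phi x0 = ⁅⁅f4 (cls k12), f4 (cls k13)⁆, f4 (cls mm)⁆ := by
    unfold x0 Phi
    rw [LieHom.map_lie, LieHom.map_lie, liftLV_ι, liftLV_ι, liftLV_ι]
  rw [h, f4_br, f4_cls, p_k12.1, p_k12.2.1, p_k12.2.2, p_k13.1, p_k13.2.1, p_k13.2.2,
    p_mm.1, p_mm.2.1, p_mm.2.2, br_M4]
  intro h0
  have h1 := congrFun (congrFun h0 0) 3
  simp at h1

/-- The kernel of `L[V] → E₀^*(IA_3)` is not generated by elements of degree two. -/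
theorem IA3_not_quadratic : ¬ IsFreeModQuadratic (IA 3) := by
  rintro ⟨S, hS, hker⟩
  have h1 : LieSubmodule.lieSpan ℤ (LV (V1 G3)) S ≤ Phi.ker := by
    rw [LieSubmodule.lieSpan_le]
    intro z hz
    have hz2 : z ∈ (natMap G3).ker := by
      rw [hker]; exact LieSubmodule.subset_lieSpan hz
    rw [LieHom.mem_ker] at hz2
    obtain ⟨w, hw1, hw2⟩ := key z (hS hz)
    rw [hz2] at hw1
    have hw3 := (mkL_eq_zero w).1 hw1.symm
    rw [SetLike.mem_coe, LieHom.mem_ker, hw2, sec_lcs pa_mul pb_mul g1_mul hw3,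
      sec_lcs pb_mul pc_mul g2_mul hw3]
    simp
  have h2 : x0 ∈ (natMap G3).ker := by rw [LieHom.mem_ker]; exact natMap_x0
  rw [hker] at h2
  exact Phi_x0 (LieHom.mem_ker.1 (h1 h2))

end Pool.Agent.X250.Quad
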