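import Mathlib
import Pool.Agent.H77R2.AssocLie

/-!
# The free Lie ring on an abelian group and quadratic presentations of the associated Lie ring

`LV V` is the free Lie ring `L[V]` on the abelian group `V`, `deg2 V` is its homogeneous component
`L₂[V]`, and `natMap G : L[V] → E₀^*(G)` is the natural map extending the identity on
`V = Γ₁ G / Γ₂ G`, where `E₀^*(G) = BurnLie.AssocLie G` is the associated Lie ring of the group `G`.
-/

set_option autoImplicit false

namespace Pool.Agent.X250.Quad

open BurnLie
open scoped commutatorElement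

attribute [local instance 50] LieRing.instLieAlgebra

/-- The relators `[u + v] - ([u] + [v])`, expressing that the generators are additive. -/
def addRel (V : Type) [AddCommGroup V] : Set (FreeLieAlgebra ℤ V) :=
  {z | ∃ u v : V, z = FreeLieAlgebra.of ℤ (u + v) -
    (FreeLieAlgebra.of ℤ u + FreeLieAlgebra.of ℤ v)}

/-- The Lie ideal generated by the relators `addRel V`. -/
noncomputable def addIdeal (V : Type) [AddCommGroup V] : LieIdeal ℤ (FreeLieAlgebra ℤ V) :=
  LieSubmodule.lieSpan ℤ (FreeLieAlgebra ℤ V) (addRel V)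

/-- The free Lie ring `L[V]` on the abelian group `V`: the free Lie ring on the set `V` modulo
the relations saying that `V → L[V]` is additive. -/
def LV (V : Type) [AddCommGroup V] : Type := FreeLieAlgebra ℤ V ⧸ addIdeal V

section
variable (V : Type) [AddCommGroup V]

noncomputable instance instLieRingLV : LieRing (LV V) :=
  (LieSubmodule.Quotient.lieQuotientLieRing (addIdeal V) :
    LieRing (FreeLieAlgebra ℤ V ⧸ addIdeal V))

/-- The quotient map from the free Lie ring on the set `V` to `L[V]`. -/
noncomputable def qmap : FreeLieAlgebra ℤ V →+ LV V :=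
  AddMonoidHom.mk' (fun x => (LieSubmodule.Quotient.mk x : FreeLieAlgebra ℤ V ⧸ addIdeal V))
    (fun _ _ => rfl)

theorem qmap_lie (x y : FreeLieAlgebra ℤ V) : qmap V ⁅x, y⁆ = ⁅qmap V x, qmap V y⁆ := rfl

theorem qmap_surj : Function.Surjective (qmap V) := by
  intro x
  induction x using Quotient.inductionOn' with
  | _ x => exact ⟨x, rfl⟩

theorem qmap_eq_zero {x : FreeLieAlgebra ℤ V} : qmap V x = 0 ↔ x ∈ addIdeal V :=
  LieSubmodule.Quotient.mk_eq_zero'

/-- The canonical additive map `V → L[V]`. -/
noncomputable def ι : V →+ LV V :=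
  AddMonoidHom.mk' (fun v => qmap V (FreeLieAlgebra.of ℤ v)) (by
    intro u v
    rw [← map_add, ← sub_eq_zero, ← map_sub, qmap_eq_zero]
    exact LieSubmodule.subset_lieSpan ⟨u, v, rfl⟩)

/-- The homogeneous component `L₂[V]` of degree two of `L[V]`: the additive subgroup generated by
the brackets of two elements of `V`. -/
noncomputable def deg2 : AddSubgroup (LV V) :=
  AddSubgroup.closure {z | ∃ u v : V, z = ⁅ι V u, ι V v⁆}

variable {V}
variable {M : Type} [LieRing M]

/-- The ideal of additivity relators is killed by the extension of an additive map. -/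
theorem addIdeal_le (f : V →+ M) {x : FreeLieAlgebra ℤ V} (hx : x ∈ addIdeal V) :
    FreeLieAlgebra.lift ℤ (f : V → M) x = 0 := by
  have h : addIdeal V ≤ (FreeLieAlgebra.lift ℤ (f : V → M)).ker := by
    unfold addIdeal
    rw [LieSubmodule.lieSpan_le]
    rintro z ⟨u, v, rfl⟩
    simp only [SetLike.mem_coe, LieHom.mem_ker, map_sub, map_add, FreeLieAlgebra.lift_of_apply,
      sub_self]
  exact LieHom.mem_ker.1 (h hx)

/-- The extension of an additive map `V → M` to a Lie ring homomorphism `L[V] → M`. -/
noncomputable def liftLV (f : V →+ M) : LV V →ₗ⁅ℤ⁆ M where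
  toFun x := Quotient.liftOn' x (fun y => FreeLieAlgebra.lift ℤ (f : V → M) y) (by
    intro a b hab
    rw [Submodule.quotientRel_def] at hab
    have := addIdeal_le f hab
    rw [map_sub, sub_eq_zero] at this
    exact this)
  map_add' := by
    intro x y
    obtain ⟨x, rfl⟩ := qmap_surj V x
    obtain ⟨y, rfl⟩ := qmap_surj V y
    exact map_add (FreeLieAlgebra.lift ℤ (f : V → M)) x y
  map_smul' := by
    intro n x
    obtain ⟨x, rfl⟩ := qmap_surj V x
    have h1 : n • qmap V x = qmap V (n • x) := (map_zsmul (qmap V) n x).symm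
    rw [h1]
    exact map_zsmul (FreeLieAlgebra.lift ℤ (f : V → M)) n x
  map_lie' := by
    intro x y
    obtain ⟨x, rfl⟩ := qmap_surj V x
    obtain ⟨y, rfl⟩ := qmap_surj V y
    exact LieHom.map_lie (FreeLieAlgebra.lift ℤ (f : V → M)) x y

theorem liftLV_qmap (f : V →+ M) (x : FreeLieAlgebra ℤ V) :
    liftLV f (qmap V x) = FreeLieAlgebra.lift ℤ (f : V → M) x := rfl

theorem liftLV_ι (f : V →+ M) (v : V) : liftLV f (ι V v) = f v :=
  FreeLieAlgebra.lift_of_apply (f : V → M) v

/-- Universal property of `L[V]`: a Lie ring homomorphism out of `L[V]` is determined by its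
restriction to `V`. -/
theorem liftLV_unique (f : V →+ M) (g : LV V →ₗ⁅ℤ⁆ M) (h : ∀ v, g (ι V v) = f v) :
    g = liftLV f := by
  ext x
  obtain ⟨x, rfl⟩ := qmap_surj V x
  let q : FreeLieAlgebra ℤ V →ₗ⁅ℤ⁆ LV V :=
    { toFun := qmap V
      map_add' := map_add (qmap V)
      map_smul' := fun n x => map_zsmul (qmap V) n x
      map_lie' := fun {x y} => qmap_lie V x y }
  have h2 : g.comp q = (liftLV f).comp q := by
    apply FreeLieAlgebra.hom_ext
    intro v
    exact (h v).trans (liftLV_ι f v).symm
  exact LieHom.congr_fun h2 x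

end

section
variable (G : Type) [Group G]

/-- The degree one part `V = Γ₁ G / Γ₂ G` of the associated Lie ring. -/
abbrev V1 : Type := Grd G 0

/-- The natural Lie ring homomorphism `L[V] → E₀^*(G)`, the identity on `V = G/[G,G]`. -/
noncomputable def natMap : LV (V1 G) →ₗ⁅ℤ⁆ AssocLie G := liftLV (ofL (G := G) 0)

/-- `E₀^*(G)` is a free Lie algebra modulo quadratic relations: the kernel of the natural map
`L[V] → E₀^*(G)` is the Lie ideal generated by some set of elements of `L₂[V]`. -/
def IsFreeModQuadratic : Prop :=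
  ∃ S : Set (LV (V1 G)), S ⊆ (deg2 (V1 G) : Set (LV (V1 G))) ∧
    (natMap G).ker = LieSubmodule.lieSpan ℤ (LV (V1 G)) S

variable {G}

/-- The class in `V = Γ₁ G / Γ₂ G` of an element of `G`. -/
def cls (g : G) : V1 G := grMk 0 ⟨g, Subgroup.mem_top g⟩

theorem cls_mul (g h : G) : cls (g * h) = cls g + cls h := rfl

theorem cls_surj (x : V1 G) : ∃ g : G, cls g = x := by
  obtain ⟨g, rfl⟩ := grMk_surj 0 x
  exact ⟨g, rfl⟩

theorem natMap_cls (g : G) : natMap G (ι _ (cls g)) = mkL 0 ⟨g, Subgroup.mem_top g⟩ :=
  liftLV_ι _ _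

theorem natMap_br (g h : G) : natMap G ⁅ι _ (cls g), ι _ (cls h)⁆ =
    mkL 1 ⟨⁅g, h⁆, lcs_comm_mem (m := 0) (n := 0) (Subgroup.mem_top g) (Subgroup.mem_top h)⟩ := by
  rw [LieHom.map_lie, natMap_cls, natMap_cls]
  exact lieHom_mkL 0 0 _ _

theorem mkL_eq_zero {n : ℕ} (g : lcs G n) :
    mkL n g = 0 ↔ (g : G) ∈ lcs G (n + 1) := by
  have h1 : mkL n g = 0 ↔ grMk n g = 0 := by
    unfold mkL
    constructor
    · intro h
      have h2 : ofL n (grMk n g) = ofL n (0 : Grd G n) := by rw [h, map_zero]
      exact DirectSum.of_injective n h2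
    · intro h
      rw [h, map_zero]
  rw [h1, ← grMk_one, grMk_eq]
  constructor
  · intro h
    have := inv_mem h
    simpa using this
  · intro h
    simpa using inv_mem h

/-- An additive map from `V` coming from a homomorphism `G → A`, `A` abelian (written with a
function that turns products to sums). -/
noncomputable def ofHom {A : Type} [AddCommGroup A] (p : G →* Multiplicative A) : V1 G →+ A :=
  AddMonoidHom.mk' (fun x => Multiplicative.toAdd (p (cls_surj x).choose)) (by
    have key : ∀ g h : G, cls g = cls h → p g = p h := by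
      intro g h hgh
      have h1 : (g : G)⁻¹ * h ∈ lcs G 1 := (grMk_eq 0 _ _).1 hgh
      have h2 : lcs G 1 ≤ p.ker := by
        have : lcs G 1 = commutator G := by
          rw [lcs, Subgroup.top_lowerCentralSeries_one]
        rw [this]
        exact Abelianization.commutator_subset_ker p
      have h3 := h2 h1
      rw [MonoidHom.mem_ker, map_mul, map_inv, inv_mul_eq_one] at h3
      exact h3
    intro x y
    rw [← toAdd_mul, ← map_mul]
    congr 1
    apply key
    rw [(cls_surj (x + y)).choose_spec, cls_mul, (cls_surj x).choose_spec,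
      (cls_surj y).choose_spec])

end

/-- The group `IA_n` of the automorphisms of the free group `F_n` on `x_1, …, x_n` that induce
the identity on the abelianization `F_n/[F_n,F_n]`. -/
def IA (n : ℕ) : Subgroup (MulAut (FreeGroup (Fin n))) where
  carrier := {φ | ∀ x, Abelianization.of (φ x) = Abelianization.of x}
  mul_mem' := by
    intro φ ψ hφ hψ x
    rw [MulAut.mul_apply, hφ, hψ]
  one_mem' := fun _ => rfl
  inv_mem' := by
    intro φ hφ x
    have h := hφ (φ⁻¹ x)
    rw [MulAut.apply_inv_self] at h
    exact h.symm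


end Pool.Agent.X250.Quad
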