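import Mathlib

/-!
# Tori in products of general linear groups: definitions
-/

set_option autoImplicit false

namespace Pool.Agent.X250.Torus

open MvPolynomial

section Defs
variable {K : Type} [Field K] {n r : ℕ}

/-- The group `GL_n(K)^r`. -/
abbrev GG (K : Type) [Field K] (n r : ℕ) : Type := Fin r → GL (Fin n) K

/-- The matrix entries of a point of `GL_n(K)^r`. -/
def coords (h : GG K n r) : Fin r × Fin n × Fin n → K := fun x => (h x.1).1 x.2.1 x.2.2

/-- `f` is a regular function on `GL_n^r`: a polynomial in the entries divided by a power of the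
product of the determinants. -/
def RegG (f : GG K n r → K) : Prop :=
  ∃ (N : ℕ) (P : MvPolynomial (Fin r × Fin n × Fin n) K),
    ∀ h : GG K n r, f h * (∏ i, (h i).1.det) ^ N = eval (coords h) P

/-- `f` is a regular function on `𝔾_m^d`: a Laurent polynomial. -/
def RegT {d : ℕ} (f : (Fin d → Kˣ) → K) : Prop :=
  ∃ (N : ℕ) (P : MvPolynomial (Fin d) K),
    ∀ t : Fin d → Kˣ, f t * (∏ i, (t i : K)) ^ N = eval (fun i => (t i : K)) P

/-- `T` is Zariski closed in `GL_n^r`: a point at which all polynomials vanishing on `T` vanish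
lies in `T`. -/
def IsClosedAlg (T : Set (GG K n r)) : Prop :=
  ∀ h : GG K n r, (∀ P : MvPolynomial (Fin r × Fin n × Fin n) K,
    (∀ g ∈ T, eval (coords g) P = 0) → eval (coords h) P = 0) → h ∈ T

/-- `T` is a torus: a closed subgroup which is isomorphic, as an algebraic group, to `𝔾_m^d` for
some `d`: there is a homomorphism `φ : 𝔾_m^d → GL_n^r` of algebraic groups with image `T` whose
inverse `T → 𝔾_m^d` is also given by regular functions. -/
def IsTorus (T : Subgroup (GG K n r)) : Prop :=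
  IsClosedAlg (T : Set (GG K n r)) ∧ ∃ (d : ℕ) (φ : (Fin d → Kˣ) →* GG K n r),
    (∀ i a b, RegT (fun t => (φ t i).1 a b)) ∧ φ.range = T ∧
    ∀ j, ∃ F : GG K n r → K, RegG F ∧ ∀ t, F (φ t) = (t j : K)

/-- The subvariety `X = {h : M₁ h₁ M₂ h₂ ⋯ M_r h_r M_{r+1} = 1}`. -/
def XX (M : Fin (r + 1) → GL (Fin n) K) : Set (GG K n r) :=
  {h | (List.ofFn fun i : Fin r => M i.castSucc * h i).prod * M (Fin.last r) = 1}

/-- `T` is a maximal torus lying in `X`. -/
def IsMaxTorusIn (X : Set (GG K n r)) (T : Subgroup (GG K n r)) : Prop :=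
  IsTorus T ∧ (T : Set (GG K n r)) ⊆ X ∧
    ∀ T' : Subgroup (GG K n r), IsTorus T' → (T' : Set (GG K n r)) ⊆ X → T ≤ T' → T' = T

/-- `σ` is an automorphism of `GL_n^r` as an algebraic group. -/
def IsAlgAut (σ : MulAut (GG K n r)) : Prop :=
  (∀ i a b, RegG (fun h => (σ h i).1 a b)) ∧ (∀ i a b, RegG (fun h => (σ.symm h i).1 a b))

/-- `T` and `T'` are in the same orbit of the stabilizer `H` of `X` in `Aut(GL_n^r)`. -/
def SameOrbit (X : Set (GG K n r)) (T T' : Subgroup (GG K n r)) : Prop :=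
  ∃ σ : MulAut (GG K n r), IsAlgAut σ ∧ σ '' X = X ∧ T.map σ.toMonoidHom = T'

/-- The matrix `M` is semisimple, i.e. diagonalizable. -/
def IsDiag (M : GL (Fin n) K) : Prop :=
  ∃ (P : GL (Fin n) K) (D : Fin n → K), P.1 * M.1 * (P⁻¹).1 = Matrix.diagonal D

end Defs

end Pool.Agent.X250.Torus
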