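import Pool.Agent.X250.TorusMain

/-!
# Maximal tori in `{h₁h₂h₃h₄ = 1} ⊂ GL_2^4`: end of the proof
-/

set_option autoImplicit false
set_option linter.unusedSectionVars false

namespace Pool.Agent.X250.Torus

open scoped commutatorElement
open MvPolynomial

section Reg
variable {K : Type} [Field K] {d : ℕ}

theorem RegT.const (c : K) : RegT (fun _ : Fin d → Kˣ => c) :=
  ⟨0, C c, fun t => by simp⟩

theorem RegT.coord (j : Fin d) : RegT (fun t : Fin d → Kˣ => (t j : K)) :=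
  ⟨0, X j, fun t => by simp⟩

theorem RegT.inv (j : Fin d) : RegT (fun t : Fin d → Kˣ => (((t j)⁻¹ : Kˣ) : K)) := by
  refine ⟨1, ∏ i ∈ Finset.univ.erase j, X i, fun t => ?_⟩
  rw [pow_one, ← Finset.mul_prod_erase Finset.univ (fun i => (t i : K)) (Finset.mem_univ j),
    ← mul_assoc, Units.inv_mul, one_mul, map_prod]
  simp

theorem RegT.add {f g : (Fin d → Kˣ) → K} (hf : RegT f) (hg : RegT g) :
    RegT (fun t => f t + g t) := by
  obtain ⟨N, P, hP⟩ := hf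
  obtain ⟨M, Q, hQ⟩ := hg
  refine ⟨N + M, P * (∏ i, X i) ^ M + Q * (∏ i, X i) ^ N, fun t => ?_⟩
  rw [map_add, map_mul, map_mul, map_pow, map_pow, map_prod, ← hP, ← hQ]
  simp only [eval_X]
  ring

theorem RegT.mul {f g : (Fin d → Kˣ) → K} (hf : RegT f) (hg : RegT g) :
    RegT (fun t => f t * g t) := by
  obtain ⟨N, P, hP⟩ := hf
  obtain ⟨M, Q, hQ⟩ := hg
  refine ⟨N + M, P * Q, fun t => ?_⟩
  rw [map_mul, ← hP, ← hQ]
  ring

theorem RegT.congr {f g : (Fin d → Kˣ) → K} (hf : RegT f) (h : ∀ t, g t = f t) : RegT g := by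
  have : g = f := funext h
  rw [this]; exact hf

end Reg

section
variable {K : Type} [Field K] [CharZero K]

theorem phi_reg {I : K} (hI : I * I = -1) (ζ : Kˣ) (i : Fin 4) (a b : Fin 2) :
    RegT (fun t => (phi hI ζ t i).1 a b) := by
  have key : ∀ (c : K) (j k : Fin 5), RegT (fun t : Fin 5 → Kˣ => c * ((t j : K) + (t k : K))) :=
    fun c j k => (RegT.const c).mul ((RegT.coord j).add (RegT.coord k))
  have key' : ∀ (c : K) (j k : Fin 5),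
      RegT (fun t : Fin 5 → Kˣ => c * ((t j : K) + (-1) * (t k : K))) :=
    fun c j k => (RegT.const c).mul ((RegT.coord j).add ((RegT.const (-1)).mul (RegT.coord k)))
  have key2 : ∀ (c : K) (j k : Fin 5), RegT (fun t : Fin 5 → Kˣ =>
      c * ((((t j)⁻¹ : Kˣ) : K) + (((t k)⁻¹ : Kˣ) : K))) :=
    fun c j k => (RegT.const c).mul ((RegT.inv j).add (RegT.inv k))
  have key2' : ∀ (c : K) (j k : Fin 5), RegT (fun t : Fin 5 → Kˣ =>
      c * ((((t j)⁻¹ : Kˣ) : K) + (-1) * (((t k)⁻¹ : Kˣ) : K))) :=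
    fun c j k => (RegT.const c).mul ((RegT.inv j).add ((RegT.const (-1)).mul (RegT.inv k)))
  fin_cases i
  · fin_cases a <;> fin_cases b
    · exact (key (1/2) 0 1).congr (fun t => by
        change (phi hI ζ t 0).1 0 0 = _
        rw [phi0, t00]; ring)
    · exact (key' (((1 : Kˣ) : K) * I / 2) 1 0).congr (fun t => by
        change (phi hI ζ t 0).1 0 1 = _
        rw [phi0, t01]; ring)
    · exact (key' (((1⁻¹ : Kˣ) : K) * I / 2) 0 1).congr (fun t => by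
        change (phi hI ζ t 0).1 1 0 = _
        rw [phi0, t10]; ring)
    · exact (key (1/2) 0 1).congr (fun t => by
        change (phi hI ζ t 0).1 1 1 = _
        rw [phi0, t11]; ring)
  · fin_cases a <;> fin_cases b
    · exact ((RegT.coord 4).mul (key2 (1/2) 0 1)).congr (fun t => by
        change (phi hI ζ t 1).1 0 0 = _
        rw [phi1, st00]; ring)
    · exact ((RegT.coord 4).mul (key2' (((1 : Kˣ) : K) * I / 2) 1 0)).congr (fun t => by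
        change (phi hI ζ t 1).1 0 1 = _
        rw [phi1, st01]; ring)
    · exact ((RegT.coord 4).mul (key2' (((1⁻¹ : Kˣ) : K) * I / 2) 0 1)).congr (fun t => by
        change (phi hI ζ t 1).1 1 0 = _
        rw [phi1, st10]; ring)
    · exact ((RegT.coord 4).mul (key2 (1/2) 0 1)).congr (fun t => by
        change (phi hI ζ t 1).1 1 1 = _
        rw [phi1, st11]; ring)
  · fin_cases a <;> fin_cases b
    · exact (key (1/2) 2 3).congr (fun t => by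
        change (phi hI ζ t 2).1 0 0 = _
        rw [phi2, t00]; ring)
    · exact (key' ((ζ : K) * I / 2) 3 2).congr (fun t => by
        change (phi hI ζ t 2).1 0 1 = _
        rw [phi2, t01]; ring)
    · exact (key' (((ζ⁻¹ : Kˣ) : K) * I / 2) 2 3).congr (fun t => by
        change (phi hI ζ t 2).1 1 0 = _
        rw [phi2, t10]; ring)
    · exact (key (1/2) 2 3).congr (fun t => by
        change (phi hI ζ t 2).1 1 1 = _
        rw [phi2, t11]; ring)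
  · fin_cases a <;> fin_cases b
    · exact ((RegT.inv 4).mul (key2 (1/2) 2 3)).congr (fun t => by
        change (phi hI ζ t 3).1 0 0 = _
        rw [phi3, st00]; ring)
    · exact ((RegT.inv 4).mul (key2' ((ζ : K) * I / 2) 3 2)).congr (fun t => by
        change (phi hI ζ t 3).1 0 1 = _
        rw [phi3, st01]; ring)
    · exact ((RegT.inv 4).mul (key2' (((ζ⁻¹ : Kˣ) : K) * I / 2) 2 3)).congr (fun t => by
        change (phi hI ζ t 3).1 1 0 = _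
        rw [phi3, st10]; ring)
    · exact ((RegT.inv 4).mul (key2 (1/2) 2 3)).congr (fun t => by
        change (phi hI ζ t 3).1 1 1 = _
        rw [phi3, st11]; ring)

/-- the variable of an entry -/
noncomputable abbrev xv (i : Fin 4) (a b : Fin 2) : MvPolynomial (Fin 4 × Fin 2 × Fin 2) K :=
  X (i, a, b)

theorem eval_xv (h : G4 K) (i : Fin 4) (a b : Fin 2) :
    eval (coords h) (xv i a b : MvPolynomial (Fin 4 × Fin 2 × Fin 2) K) = (h i).1 a b := by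
  simp [xv, coords]

theorem T_closed {I : K} (hI : I * I = -1) (ζ : Kˣ) : IsClosedAlg (TT hI ζ : Set (G4 K)) := by
  intro h hP
  change h ∈ TT hI ζ
  rw [mem_iff]
  have key : ∀ P : MvPolynomial (Fin 4 × Fin 2 × Fin 2) K,
      (∀ g : G4 K, Eqs ζ g → eval (coords g) P = 0) → eval (coords h) P = 0 := by
    intro P h1
    exact hP P (fun g hg => h1 g ((mem_iff hI ζ g).1 hg))
  set w : K := ((ζ⁻¹ : Kˣ) : K) with hw
  have a1 := key (xv 0 0 0 - xv 0 1 1) (fun g hg => by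
    rw [map_sub, eval_xv, eval_xv, sub_eq_zero]; exact hg.1.1)
  have a2 := key (xv 0 1 0 + xv 0 0 1) (fun g hg => by
    rw [map_add, eval_xv, eval_xv, hg.1.2]; ring)
  have b1 := key (xv 1 0 0 - xv 1 1 1) (fun g hg => by
    rw [map_sub, eval_xv, eval_xv, sub_eq_zero]; exact hg.2.1.1)
  have b2 := key (xv 1 1 0 + xv 1 0 1) (fun g hg => by
    rw [map_add, eval_xv, eval_xv, hg.2.1.2]; ring)
  have c1 := key (xv 2 0 0 - xv 2 1 1) (fun g hg => by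
    rw [map_sub, eval_xv, eval_xv, sub_eq_zero]; exact hg.2.2.1.1)
  have c2 := key (xv 2 1 0 + C (w * w) * xv 2 0 1) (fun g hg => by
    rw [map_add, map_mul, eval_C, eval_xv, eval_xv, hg.2.2.1.2]; ring)
  have d1 := key (xv 3 0 0 - xv 3 1 1) (fun g hg => by
    rw [map_sub, eval_xv, eval_xv, sub_eq_zero]; exact hg.2.2.2.1.1)
  have d2 := key (xv 3 1 0 + C (w * w) * xv 3 0 1) (fun g hg => by
    rw [map_add, map_mul, eval_C, eval_xv, eval_xv, hg.2.2.2.1.2]; ring)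
  have e1 := key (xv 0 0 0 * xv 1 0 1 + xv 0 0 1 * xv 1 1 1) (fun g hg => by
    simp only [map_add, map_mul, eval_xv]; exact hg.2.2.2.2.1)
  have e2 := key (xv 2 0 0 * xv 3 0 1 + xv 2 0 1 * xv 3 1 1) (fun g hg => by
    simp only [map_add, map_mul, eval_xv]; exact hg.2.2.2.2.2.1)
  have e3 := key ((xv 0 0 0 * xv 1 0 0 + xv 0 0 1 * xv 1 1 0) *
      (xv 2 0 0 * xv 3 0 0 + xv 2 0 1 * xv 3 1 0) - 1) (fun g hg => by
    simp only [map_add, map_mul, map_sub, map_one, eval_xv]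
    rw [hg.2.2.2.2.2.2, sub_self])
  simp only [map_add, map_mul, map_sub, eval_xv, eval_C] at a1 a2 b1 b2 c1 c2 d1 d2
  simp only [map_add, map_mul, map_sub, map_one, eval_xv] at e1 e2 e3
  exact ⟨⟨by linear_combination a1, by linear_combination a2⟩,
    ⟨by linear_combination b1, by linear_combination b2⟩,
    ⟨by linear_combination c1, by linear_combination c2⟩,
    ⟨by linear_combination d1, by linear_combination d2⟩, e1, e2, by linear_combination e3⟩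

theorem T_isTorus {I : K} (hI : I * I = -1) (ζ : Kˣ) : IsTorus (TT hI ζ) := by
  refine ⟨T_closed hI ζ, 5, phi hI ζ, phi_reg hI ζ, rfl, ?_⟩
  have hz : (ζ : K) * ((ζ⁻¹ : Kˣ) : K) = 1 := ζ.mul_inv
  have reg : ∀ P : MvPolynomial (Fin 4 × Fin 2 × Fin 2) K,
      RegG (fun h : GG K 2 4 => eval (coords h) P) := fun P => ⟨0, P, fun h => by simp⟩
  intro j
  fin_cases j
  · refine ⟨_, reg (xv 0 0 0 + C I * xv 0 0 1), fun t => ?_⟩
    rw [map_add, map_mul, eval_C, eval_xv, eval_xv, phi0, t00, t01, Units.val_one]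
    change _ = (t 0 : K)
    linear_combination (((t 1 : K) - t 0) / 2) * hI
  · refine ⟨_, reg (xv 0 0 0 - C I * xv 0 0 1), fun t => ?_⟩
    rw [map_sub, map_mul, eval_C, eval_xv, eval_xv, phi0, t00, t01, Units.val_one]
    change _ = (t 1 : K)
    linear_combination (-((t 1 : K) - t 0) / 2) * hI
  · refine ⟨_, reg (xv 2 0 0 + C (I * ((ζ⁻¹ : Kˣ) : K)) * xv 2 0 1), fun t => ?_⟩
    rw [map_add, map_mul, eval_C, eval_xv, eval_xv, phi2, t00, t01]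
    change _ = (t 2 : K)
    linear_combination (((t 3 : K) - t 2) / 2) * hI + (I * I * ((t 3 : K) - t 2) / 2) * hz
  · refine ⟨_, reg (xv 2 0 0 - C (I * ((ζ⁻¹ : Kˣ) : K)) * xv 2 0 1), fun t => ?_⟩
    rw [map_sub, map_mul, eval_C, eval_xv, eval_xv, phi2, t00, t01]
    change _ = (t 3 : K)
    linear_combination (-((t 3 : K) - t 2) / 2) * hI - (I * I * ((t 3 : K) - t 2) / 2) * hz
  · refine ⟨_, reg (xv 0 0 0 * xv 1 0 0 + xv 0 0 1 * xv 1 1 0), fun t => ?_⟩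
    have h0 : (t 0 : K) * (((t 0)⁻¹ : Kˣ) : K) = 1 := (t 0).mul_inv
    have h1 : (t 1 : K) * (((t 1)⁻¹ : Kˣ) : K) = 1 := (t 1).mul_inv
    rw [map_add, map_mul, map_mul, eval_xv, eval_xv, eval_xv, eval_xv, phi0, phi1, t00, t01,
      st00, st10, inv_one, Units.val_one]
    change _ = (t 4 : K)
    linear_combination ((t 4 : K) / 2) * h0 + ((t 4 : K) / 2) * h1 +
        ((t 4 : K) * ((t 1 : K) - t 0) *
          ((((t 0)⁻¹ : Kˣ) : K) - (((t 1)⁻¹ : Kˣ) : K)) / 4) * hI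

theorem eqs_of_X {ζ : Kˣ} (hζ : ζ ^ 2 ≠ 1) {h : G4 K} (hX : h ∈ X4 K)
    (h0 : h 0 * Jm 1 = Jm 1 * h 0) (h1 : h 1 * Jm 1 = Jm 1 * h 1)
    (h2 : h 2 * Jm ζ = Jm ζ * h 2) (h3 : h 3 * Jm ζ = Jm ζ * h 3) : Eqs ζ h := by
  change h 0 * h 1 * h 2 * h 3 = 1 at hX
  have g1 : (h 0 * h 1) * Jm 1 = Jm 1 * (h 0 * h 1) := by
    rw [mul_assoc, h1, ← mul_assoc, h0, mul_assoc]
  have g2 : (h 0 * h 1) * Jm ζ = Jm ζ * (h 0 * h 1) := by
    have e : h 0 * h 1 = (h 2 * h 3)⁻¹ := by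
      rw [eq_inv_iff_mul_eq_one, ← hX]; group
    have e2 : (h 2 * h 3) * Jm ζ = Jm ζ * (h 2 * h 3) := by
      rw [mul_assoc, h3, ← mul_assoc, h2, mul_assoc]
    rw [e]
    exact (Commute.inv_left (show Commute (h 2 * h 3) (Jm ζ) from e2)).eq
  rw [comm_J_iff] at h0 h1 h2 h3 g1 g2
  have hb : (h 0 * h 1).1 0 1 = 0 := by
    have hne : (1 : K) - ((ζ⁻¹ : Kˣ) : K) * ((ζ⁻¹ : Kˣ) : K) ≠ 0 := by
      intro hc
      apply hζ
      have h5 : (ζ⁻¹ : Kˣ) * ζ⁻¹ = 1 := by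
        apply Units.ext
        rw [Units.val_mul, Units.val_one]
        linear_combination -hc
      rw [sq]
      rw [← mul_inv, inv_eq_one] at h5
      exact h5
    have h6 := g1.2.symm.trans g2.2
    rw [inv_one, Units.val_one] at h6
    have h7 : (h 0 * h 1).1 0 1 * (1 - ((ζ⁻¹ : Kˣ) : K) * ((ζ⁻¹ : Kˣ) : K)) = 0 := by
      linear_combination -h6
    exact (mul_eq_zero.1 h7).resolve_right hne
  have hX2 : (h 0 * h 1) * (h 2 * h 3) = 1 := by rw [← hX]; group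
  have x00 := congrArg (fun y : G2 K => y.1 0 0) hX2
  have x01 := congrArg (fun y : G2 K => y.1 0 1) hX2
  rw [mul00 (h 0 * h 1), hb, o00, zero_mul, add_zero] at x00
  rw [mul01 (h 0 * h 1), hb, o01, zero_mul, add_zero] at x01
  have hne : (h 0 * h 1).1 0 0 ≠ 0 := by
    intro hc; rw [hc, zero_mul] at x00; exact zero_ne_one x00
  have hd : (h 2 * h 3).1 0 1 = 0 := (mul_eq_zero.1 x01).resolve_left hne
  rw [mul01] at hb hd
  rw [mul00, mul00] at x00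
  have f0 := h0.2
  have f1 := h1.2
  rw [inv_one, Units.val_one] at f0 f1
  exact ⟨⟨h0.1, by rw [f0]; ring⟩, ⟨h1.1, by rw [f1]; ring⟩, h2, h3, hb, hd, x00⟩

theorem mem_u (ζ : Kˣ) {I : K} (hI : I * I = -1) :
    e 0 (Jm 1) * e 1 (Jm 1)⁻¹ ∈ TT hI ζ := by
  rw [mem_iff]
  have hv : ∀ i, (e 0 (Jm 1) * e 1 (Jm 1)⁻¹ : G4 K) i = (![Jm 1, (Jm 1)⁻¹, 1, 1] : G4 K) i := by
    intro i; fin_cases i <;> simp [e]
  unfold Eqs
  rw [hv 0, hv 1, hv 2, hv 3, Jm_inv]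
  change ((Jm (1 : Kˣ)).1 0 0 = (Jm (1 : Kˣ)).1 1 1 ∧ (Jm (1 : Kˣ)).1 1 0 = -(Jm (1 : Kˣ)).1 0 1) ∧
    ((neg1 * Jm (1 : Kˣ)).1 0 0 = (neg1 * Jm (1 : Kˣ)).1 1 1 ∧
      (neg1 * Jm (1 : Kˣ)).1 1 0 = -(neg1 * Jm (1 : Kˣ)).1 0 1) ∧
    ((1 : G2 K).1 0 0 = (1 : G2 K).1 1 1 ∧
      (1 : G2 K).1 1 0 = -((ζ⁻¹ : Kˣ) : K) * ((ζ⁻¹ : Kˣ) : K) * (1 : G2 K).1 0 1) ∧
    ((1 : G2 K).1 0 0 = (1 : G2 K).1 1 1 ∧
      (1 : G2 K).1 1 0 = -((ζ⁻¹ : Kˣ) : K) * ((ζ⁻¹ : Kˣ) : K) * (1 : G2 K).1 0 1) ∧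
    ((Jm (1 : Kˣ)).1 0 0 * (neg1 * Jm (1 : Kˣ)).1 0 1 +
      (Jm (1 : Kˣ)).1 0 1 * (neg1 * Jm (1 : Kˣ)).1 1 1 = 0) ∧
    ((1 : G2 K).1 0 0 * (1 : G2 K).1 0 1 + (1 : G2 K).1 0 1 * (1 : G2 K).1 1 1 = 0) ∧
    ((Jm (1 : Kˣ)).1 0 0 * (neg1 * Jm (1 : Kˣ)).1 0 0 +
      (Jm (1 : Kˣ)).1 0 1 * (neg1 * Jm (1 : Kˣ)).1 1 0) *
      ((1 : G2 K).1 0 0 * (1 : G2 K).1 0 0 + (1 : G2 K).1 0 1 * (1 : G2 K).1 1 0) = 1
  simp [mul00, mul01, mul10, mul11, n00, n01, n10, n11, Jm00, Jm01, Jm10, Jm11, o00, o01, o10, o11]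

theorem mem_v (ζ : Kˣ) {I : K} (hI : I * I = -1) :
    e 2 (Jm ζ) * e 3 (Jm ζ)⁻¹ ∈ TT hI ζ := by
  rw [mem_iff]
  have hv : ∀ i, (e 2 (Jm ζ) * e 3 (Jm ζ)⁻¹ : G4 K) i = (![1, 1, Jm ζ, (Jm ζ)⁻¹] : G4 K) i := by
    intro i; fin_cases i <;> simp [e]
  unfold Eqs
  rw [hv 0, hv 1, hv 2, hv 3, Jm_inv]
  change ((1 : G2 K).1 0 0 = (1 : G2 K).1 1 1 ∧ (1 : G2 K).1 1 0 = -(1 : G2 K).1 0 1) ∧
    ((1 : G2 K).1 0 0 = (1 : G2 K).1 1 1 ∧ (1 : G2 K).1 1 0 = -(1 : G2 K).1 0 1) ∧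
    ((Jm ζ).1 0 0 = (Jm ζ).1 1 1 ∧
      (Jm ζ).1 1 0 = -((ζ⁻¹ : Kˣ) : K) * ((ζ⁻¹ : Kˣ) : K) * (Jm ζ).1 0 1) ∧
    ((neg1 * Jm ζ).1 0 0 = (neg1 * Jm ζ).1 1 1 ∧
      (neg1 * Jm ζ).1 1 0 = -((ζ⁻¹ : Kˣ) : K) * ((ζ⁻¹ : Kˣ) : K) * (neg1 * Jm ζ).1 0 1) ∧
    ((1 : G2 K).1 0 0 * (1 : G2 K).1 0 1 + (1 : G2 K).1 0 1 * (1 : G2 K).1 1 1 = 0) ∧
    ((Jm ζ).1 0 0 * (neg1 * Jm ζ).1 0 1 + (Jm ζ).1 0 1 * (neg1 * Jm ζ).1 1 1 = 0) ∧
    ((1 : G2 K).1 0 0 * (1 : G2 K).1 0 0 + (1 : G2 K).1 0 1 * (1 : G2 K).1 1 0) *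
      ((Jm ζ).1 0 0 * (neg1 * Jm ζ).1 0 0 + (Jm ζ).1 0 1 * (neg1 * Jm ζ).1 1 0) = 1
  simp [mul00, mul01, mul10, mul11, n00, n01, n10, n11, Jm00, Jm01, Jm10, Jm11, o00, o01, o10, o11]

theorem T_maximal {I : K} (hI : I * I = -1) {ζ : Kˣ} (hζ : ζ ^ 2 ≠ 1) :
    IsMaxTorusIn (X4 K) (TT hI ζ) := by
  refine ⟨T_isTorus hI ζ, T_subset_X hI ζ, ?_⟩
  rintro T' ⟨-, d, φ, -, hφ, -⟩ hT'X hle
  apply le_antisymm _ hle
  intro h hh
  have hcomm : ∀ g ∈ T', h * g = g * h := by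
    intro g hg
    rw [← hφ] at hg hh
    obtain ⟨s, rfl⟩ := hg
    obtain ⟨t, rfl⟩ := hh
    rw [← map_mul, mul_comm, map_mul]
  have hu := hcomm _ (hle (mem_u ζ hI))
  have hv := hcomm _ (hle (mem_v ζ hI))
  rw [mem_iff]
  have u0 := congrFun hu 0
  have u1 := congrFun hu 1
  have v2 := congrFun hv 2
  have v3 := congrFun hv 3
  simp [e] at u0 u1 v2 v3
  apply eqs_of_X hζ (hT'X hh) u0 _ v2 _
  · exact (Commute.inv_right_iff.1 (show Commute (h 1) (Jm 1)⁻¹ from u1)).eq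
  · exact (Commute.inv_right_iff.1 (show Commute (h 3) (Jm ζ)⁻¹ from v3)).eq

end

end Pool.Agent.X250.Torus
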