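import Pool.Agent.X250.TorusDefs

/-!
# Automorphisms of `GL_2(K)^4` preserving `{h₁h₂h₃h₄ = 1}`
-/

set_option autoImplicit false

namespace Pool.Agent.X250.Torus

open scoped commutatorElement

section
variable {K : Type} [Field K]

/-- `GL_2(K)` -/
abbrev G2 (K : Type) [Field K] : Type := GL (Fin 2) K

/-- `GL_2(K)^4` -/
abbrev G4 (K : Type) [Field K] : Type := Fin 4 → GL (Fin 2) K

/-- scalar matrices -/
def IsSc (g : G2 K) : Prop := g.1 0 1 = 0 ∧ g.1 1 0 = 0 ∧ g.1 0 0 = g.1 1 1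

theorem ext2 {g h : G2 K} (h00 : g.1 0 0 = h.1 0 0) (h01 : g.1 0 1 = h.1 0 1)
    (h10 : g.1 1 0 = h.1 1 0) (h11 : g.1 1 1 = h.1 1 1) : g = h := by
  apply Units.ext
  ext i j
  fin_cases i <;> fin_cases j
  · exact h00
  · exact h01
  · exact h10
  · exact h11

theorem mul00 (g h : G2 K) : (g * h).1 0 0 = g.1 0 0 * h.1 0 0 + g.1 0 1 * h.1 1 0 := by
  simp [Matrix.mul_apply]
theorem mul01 (g h : G2 K) : (g * h).1 0 1 = g.1 0 0 * h.1 0 1 + g.1 0 1 * h.1 1 1 := by
  simp [Matrix.mul_apply]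
theorem mul10 (g h : G2 K) : (g * h).1 1 0 = g.1 1 0 * h.1 0 0 + g.1 1 1 * h.1 1 0 := by
  simp [Matrix.mul_apply]
theorem mul11 (g h : G2 K) : (g * h).1 1 1 = g.1 1 0 * h.1 0 1 + g.1 1 1 * h.1 1 1 := by
  simp [Matrix.mul_apply]

theorem comm_iff2 (g x : G2 K) : g * x = x * g ↔
    g.1 0 1 * x.1 1 0 = x.1 0 1 * g.1 1 0 ∧
    g.1 0 1 * (x.1 0 0 - x.1 1 1) = x.1 0 1 * (g.1 0 0 - g.1 1 1) ∧
    g.1 1 0 * (x.1 0 0 - x.1 1 1) = x.1 1 0 * (g.1 0 0 - g.1 1 1) := by
  constructor
  · intro h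
    have h00 := congrArg (fun y : G2 K => y.1 0 0) h
    have h01 := congrArg (fun y : G2 K => y.1 0 1) h
    have h10 := congrArg (fun y : G2 K => y.1 1 0) h
    simp only [mul00, mul01, mul10] at h00 h01 h10
    refine ⟨?_, ?_, ?_⟩
    · linear_combination h00
    · linear_combination -h01
    · linear_combination h10
  · rintro ⟨h1, h2, h3⟩
    apply ext2
    · rw [mul00, mul00]; linear_combination h1
    · rw [mul01, mul01]; linear_combination -h2
    · rw [mul10, mul10]; linear_combination h3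
    · rw [mul11, mul11]; linear_combination -h1

theorem sc_comm {g : G2 K} (hg : IsSc g) (x : G2 K) : g * x = x * g := by
  obtain ⟨h1, h2, h3⟩ := hg
  rw [comm_iff2, h1, h2, h3]
  simp

/-- The centralizer of a non-scalar matrix is commutative. -/
theorem cent_comm {g : G2 K} (hg : ¬ IsSc g) {x y : G2 K} (hx : g * x = x * g)
    (hy : g * y = y * g) : x * y = y * x := by
  rw [comm_iff2] at hx hy ⊢
  obtain ⟨x1, x2, x3⟩ := hx
  obtain ⟨y1, y2, y3⟩ := hy
  by_cases hb : g.1 0 1 = 0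
  · by_cases hc : g.1 1 0 = 0
    · have hd : g.1 0 0 - g.1 1 1 ≠ 0 := fun h => hg ⟨hb, hc, sub_eq_zero.1 h⟩
      rw [hb, zero_mul] at x2 y2
      rw [hc, zero_mul] at x3 y3
      have e1 := (mul_eq_zero.1 x2.symm).resolve_right hd
      have e2 := (mul_eq_zero.1 y2.symm).resolve_right hd
      have e3 := (mul_eq_zero.1 x3.symm).resolve_right hd
      have e4 := (mul_eq_zero.1 y3.symm).resolve_right hd
      rw [e1, e2, e3, e4]; simp
    · refine ⟨?_, ?_, ?_⟩ <;> apply mul_left_cancel₀ hc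
      · linear_combination x.1 1 0 * y1 - y.1 1 0 * x1
      · rw [hb, zero_mul] at x1 y1 x2 y2
        have e1 := (mul_eq_zero.1 x1.symm).resolve_right hc
        have e2 := (mul_eq_zero.1 y1.symm).resolve_right hc
        rw [e1, e2]; simp
      · linear_combination x.1 1 0 * y3 - y.1 1 0 * x3
  · refine ⟨?_, ?_, ?_⟩ <;> apply mul_left_cancel₀ hb
    · linear_combination x.1 0 1 * y1 - y.1 0 1 * x1
    · linear_combination x.1 0 1 * y2 - y.1 0 1 * x2
    · have e : g.1 0 1 * (g.1 0 1 * (x.1 1 0 * (y.1 0 0 - y.1 1 1))) =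
        g.1 0 1 * (g.1 0 1 * (y.1 1 0 * (x.1 0 0 - x.1 1 1))) := by
        linear_combination (g.1 0 1 * (y.1 0 0 - y.1 1 1)) * x1 -
          (g.1 0 1 * (x.1 0 0 - x.1 1 1)) * y1 + (x.1 0 1 * g.1 1 0) * y2 -
          (y.1 0 1 * g.1 1 0) * x2
      exact mul_left_cancel₀ hb e

/-- the commutator subgroup of `GL_2(K)` -/
abbrev D (K : Type) [Field K] : Subgroup (G2 K) := commutator (G2 K)

theorem kill {G H : Type} [Group G] [Group H] (P : G →* H) (h : ∀ x y, P x * P y = P y * P x) :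
    ∀ d ∈ commutator G, P d = 1 := by
  intro d hd
  have h1 : commutator G ≤ P.ker := by
    rw [commutator_def, Subgroup.commutator_le]
    intro x _ y _
    rw [MonoidHom.mem_ker, map_commutatorElement, commutatorElement_eq_one_iff_mul_comm]
    exact h x y
  exact h1 hd

/-- the elements concentrated in one coordinate -/
abbrev e (i : Fin 4) : G2 K →* G4 K := MonoidHom.mulSingle (fun _ => G2 K) i

theorem e_same (i : Fin 4) (x : G2 K) : e i x i = x := by simp [e]
theorem e_ne {i j : Fin 4} (h : j ≠ i) (x : G2 K) : e i x j = 1 := by simp [e, h]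

theorem e_comm {i j : Fin 4} (h : i ≠ j) (x y : G2 K) : e i x * e j y = e j y * e i x :=
  (Pi.mulSingle_commute (f := fun _ : Fin 4 => G2 K) h x y).eq

theorem two_factors (σ : MulAut (G4 K)) {i j : Fin 4} (hij : i ≠ j) (m : Fin 4) :
    (∀ d ∈ D K, σ (e i d) m = 1) ∨ (∀ d ∈ D K, σ (e j d) m = 1) := by
  let P : Fin 4 → G2 K →* G2 K := fun i =>
    ((Pi.evalMonoidHom (fun _ => G2 K) m).comp σ.toMonoidHom).comp (e i)
  have hP : ∀ i x, P i x = σ (e i x) m := fun _ _ => rfl
  have hcomm : ∀ x y, P i x * P j y = P j y * P i x := by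
    intro x y
    rw [hP, hP, ← Pi.mul_apply, ← map_mul, e_comm hij, map_mul, Pi.mul_apply]
  by_cases h : ∃ x, ¬ IsSc (P i x)
  · obtain ⟨x, hx⟩ := h
    right
    exact kill (P j) (fun y z => cent_comm hx (hcomm x y) (hcomm x z))
  · left
    push Not at h
    exact kill (P i) (fun y z => sc_comm (h y) _)

/-- upper elementary matrix -/
def E12 (x : K) : G2 K := ⟨!![1, x; 0, 1], !![1, -x; 0, 1],
  by ext i j; fin_cases i <;> fin_cases j <;> simp [Matrix.mul_apply],
  by ext i j; fin_cases i <;> fin_cases j <;> simp [Matrix.mul_apply]⟩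

/-- lower elementary matrix -/
def E21 (x : K) : G2 K := ⟨!![1, 0; x, 1], !![1, 0; -x, 1],
  by ext i j; fin_cases i <;> fin_cases j <;> simp [Matrix.mul_apply],
  by ext i j; fin_cases i <;> fin_cases j <;> simp [Matrix.mul_apply]⟩

variable [CharZero K]

/-- `diag(2,1)` -/
def dg1 : G2 K := ⟨!![2, 0; 0, 1], !![1/2, 0; 0, 1],
  by ext i j; fin_cases i <;> fin_cases j <;> simp [Matrix.mul_apply],
  by ext i j; fin_cases i <;> fin_cases j <;> simp [Matrix.mul_apply]⟩

/-- `diag(1,2)` -/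
def dg2 : G2 K := ⟨!![1, 0; 0, 2], !![1, 0; 0, 1/2],
  by ext i j; fin_cases i <;> fin_cases j <;> simp [Matrix.mul_apply],
  by ext i j; fin_cases i <;> fin_cases j <;> simp [Matrix.mul_apply]⟩

theorem E12_mem (x : K) : E12 x ∈ D K := by
  have h : dg1 * E12 x * dg1⁻¹ * (E12 x)⁻¹ = E12 x := by
    rw [mul_inv_eq_iff_eq_mul, mul_inv_eq_iff_eq_mul]
    apply ext2 <;> simp [mul00, mul01, mul10, mul11, dg1, E12] <;> ring
  rw [← h, ← commutatorElement_def]
  exact Subgroup.commutator_mem_commutator (Subgroup.mem_top _) (Subgroup.mem_top _)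

theorem E21_mem (x : K) : E21 x ∈ D K := by
  have h : dg2 * E21 x * dg2⁻¹ * (E21 x)⁻¹ = E21 x := by
    rw [mul_inv_eq_iff_eq_mul, mul_inv_eq_iff_eq_mul]
    apply ext2 <;> simp [mul00, mul01, mul10, mul11, dg2, E21] <;> ring
  rw [← h, ← commutatorElement_def]
  exact Subgroup.commutator_mem_commutator (Subgroup.mem_top _) (Subgroup.mem_top _)

/-- a non-commuting pair in the commutator subgroup -/
theorem exists_D : ∃ d ∈ D K, ∃ d' ∈ D K, d * d' ≠ d' * d := by
  refine ⟨E12 1, E12_mem 1, E21 1, E21_mem 1, ?_⟩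
  intro h
  have h00 := congrArg (fun y : G2 K => y.1 0 0) h
  simp [mul00, E12, E21] at h00

theorem decomp (h : G4 K) : h = e 0 (h 0) * e 1 (h 1) * e 2 (h 2) * e 3 (h 3) := by
  funext i
  fin_cases i <;> simp [e, Pi.mulSingle_apply]

theorem commutator_comp {h : G4 K} (hh : h ∈ commutator (G4 K)) (i : Fin 4) : h i ∈ D K := by
  have h1 : (commutator (G4 K)).map (Pi.evalMonoidHom (fun _ => G2 K) i) ≤ D K := by
    simp only [commutator_def]
    rw [Subgroup.map_commutator]
    exact Subgroup.commutator_mono le_top le_top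
  exact h1 ⟨h, hh, rfl⟩

theorem e_mem_commutator {d : G2 K} (hd : d ∈ D K) (i : Fin 4) :
    e i d ∈ commutator (G4 K) := by
  have h1 : (D K).map (e i) ≤ commutator (G4 K) := by
    simp only [commutator_def]
    rw [Subgroup.map_commutator]
    exact Subgroup.commutator_mono le_top le_top
  exact h1 ⟨d, hd, rfl⟩

theorem exists_factor (σ : MulAut (G4 K)) (m : Fin 4) : ∃ i, ∃ d ∈ D K, σ (e i d) m ≠ 1 := by
  by_contra hcon
  push Not at hcon
  obtain ⟨d, hd, d', -, hdd⟩ := exists_D (K := K)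
  have hd1 : d ≠ 1 := by rintro rfl; simp at hdd
  have h1 : e m d ∈ (commutator (G4 K)).map σ.toMonoidHom := by
    have h2 : (commutator (G4 K)).map σ.toMonoidHom = commutator (G4 K) :=
      Subgroup.characteristic_iff_map_eq.1 inferInstance σ
    rw [h2]
    exact e_mem_commutator hd m
  obtain ⟨h, hh, hσ⟩ := h1
  have h3 : σ h m = d := by
    have := congrFun hσ m
    rw [e_same] at this
    exact this
  rw [decomp h, map_mul, map_mul, map_mul, Pi.mul_apply, Pi.mul_apply, Pi.mul_apply,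
    hcon 0 _ (commutator_comp hh 0), hcon 1 _ (commutator_comp hh 1),
    hcon 2 _ (commutator_comp hh 2), hcon 3 _ (commutator_comp hh 3)] at h3
  simp at h3
  exact hd1 h3.symm

theorem exists_perm (σ : MulAut (G4 K)) : ∃ π : Equiv.Perm (Fin 4), ∀ i, ∀ d ∈ D K, ∀ m, m ≠ π i →
    σ (e i d) m = 1 := by
  choose ρ hρ using exists_factor σ
  have h1 : ∀ m i, i ≠ ρ m → ∀ d ∈ D K, σ (e i d) m = 1 := by
    intro m i hi
    rcases two_factors σ hi m with h | h
    · exact h
    · obtain ⟨d, hd, hne⟩ := hρ m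
      exact absurd (h d hd) hne
  have hsurj : Function.Surjective ρ := by
    intro i
    by_contra hcon
    push Not at hcon
    obtain ⟨d, hd, d', -, hdd⟩ := exists_D (K := K)
    have hd1 : d ≠ 1 := by rintro rfl; simp at hdd
    have h2 : σ (e i d) = 1 := by
      funext m
      exact h1 m i (fun h => hcon m h.symm) d hd
    rw [map_eq_one_iff σ σ.injective] at h2
    have h3 := congrFun h2 i
    rw [e_same] at h3
    exact hd1 h3
  have hbij : Function.Bijective ρ := Finite.surjective_iff_bijective.1 hsurj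
  refine ⟨(Equiv.ofBijective ρ hbij).symm, ?_⟩
  intro i d hd m hm
  apply h1 m i _ d hd
  intro h
  apply hm
  rw [h]
  exact ((Equiv.ofBijective ρ hbij).symm_apply_apply m).symm

end

end Pool.Agent.X250.Torus
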