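import Pool.Agent.X250.TorusGrp

/-!
# Maximal tori in `{h₁h₂h₃h₄ = 1} ⊂ GL_2^4`
-/

set_option autoImplicit false
set_option linter.unusedSectionVars false

namespace Pool.Agent.X250.Torus

open scoped commutatorElement

section
variable {K : Type} [Field K] [CharZero K]

/-- `X = {h₁h₂h₃h₄ = 1}` -/
def X4 (K : Type) [Field K] : Set (G4 K) := {h | h 0 * h 1 * h 2 * h 3 = 1}

theorem X4_eq : XX (fun _ : Fin (4 + 1) => (1 : GL (Fin 2) K)) = X4 K := by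
  ext h
  unfold XX X4
  simp only [Set.mem_ofPred_eq]
  simp [List.ofFn_succ, mul_assoc, Fin.succ]

/-- the element `J` -/
def Jm (ζ : Kˣ) : G2 K := ⟨!![0, (ζ : K); -(ζ⁻¹ : Kˣ), 0], !![0, -(ζ : K); (ζ⁻¹ : Kˣ), 0],
  by ext i j; fin_cases i <;> fin_cases j <;> simp [Matrix.mul_apply],
  by ext i j; fin_cases i <;> fin_cases j <;> simp [Matrix.mul_apply]⟩

theorem Jm00 (ζ : Kˣ) : (Jm ζ).1 0 0 = 0 := rfl
theorem Jm01 (ζ : Kˣ) : (Jm ζ).1 0 1 = ζ := rfl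
theorem Jm10 (ζ : Kˣ) : (Jm ζ).1 1 0 = -(ζ⁻¹ : Kˣ) := rfl
theorem Jm11 (ζ : Kˣ) : (Jm ζ).1 1 1 = 0 := rfl

theorem E12_00 (x : K) : (E12 x).1 0 0 = 1 := rfl
theorem E12_01 (x : K) : (E12 x).1 0 1 = x := rfl
theorem E12_10 (x : K) : (E12 x).1 1 0 = 0 := rfl
theorem E12_11 (x : K) : (E12 x).1 1 1 = 1 := rfl
theorem E21_00 (x : K) : (E21 x).1 0 0 = 1 := rfl
theorem E21_01 (x : K) : (E21 x).1 0 1 = 0 := rfl
theorem E21_10 (x : K) : (E21 x).1 1 0 = x := rfl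
theorem E21_11 (x : K) : (E21 x).1 1 1 = 1 := rfl

theorem Jm_mem (ζ : Kˣ) : Jm ζ ∈ D K := by
  have h : Jm ζ = E12 (ζ : K) * E21 (-((ζ⁻¹ : Kˣ) : K)) * E12 (ζ : K) := by
    have hz : (ζ : K) * ((ζ⁻¹ : Kˣ) : K) = 1 := ζ.mul_inv
    apply ext2 <;> simp only [mul00, mul01, mul10, mul11, E12_00, E12_01, E12_10, E12_11,
      E21_00, E21_01, E21_10, E21_11, Jm00, Jm01, Jm10, Jm11]
    · linear_combination hz
    · linear_combination (ζ : K) * hz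
    · ring
    · linear_combination hz
  rw [h]
  exact mul_mem (mul_mem (E12_mem _) (E21_mem _)) (E12_mem _)

/-- `-1` -/
def neg1 : G2 K := ⟨!![-1, 0; 0, -1], !![-1, 0; 0, -1],
  by ext i j; fin_cases i <;> fin_cases j <;> simp [Matrix.mul_apply],
  by ext i j; fin_cases i <;> fin_cases j <;> simp [Matrix.mul_apply]⟩

theorem n00 : (neg1 : G2 K).1 0 0 = -1 := rfl
theorem n01 : (neg1 : G2 K).1 0 1 = 0 := rfl
theorem n10 : (neg1 : G2 K).1 1 0 = 0 := rfl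
theorem n11 : (neg1 : G2 K).1 1 1 = -1 := rfl
theorem o00 : (1 : G2 K).1 0 0 = 1 := rfl
theorem o01 : (1 : G2 K).1 0 1 = 0 := rfl
theorem o10 : (1 : G2 K).1 1 0 = 0 := rfl
theorem o11 : (1 : G2 K).1 1 1 = 1 := rfl

theorem sc_neg1 : IsSc (neg1 : G2 K) := ⟨rfl, rfl, rfl⟩
theorem sc_one : IsSc (1 : G2 K) := ⟨rfl, rfl, rfl⟩

theorem neg1_sq : (neg1 : G2 K) * neg1 = 1 := by
  apply ext2 <;> simp [mul00, mul01, mul10, mul11, n00, n01, n10, n11, o00, o01, o10, o11]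

theorem Jm_sq (ζ : Kˣ) : Jm ζ * Jm ζ = neg1 := by
  apply ext2 <;> simp [mul00, mul01, mul10, mul11, n00, n01, n10, n11, Jm00, Jm01, Jm10, Jm11]

theorem Jm_inv (ζ : Kˣ) : (Jm ζ)⁻¹ = neg1 * Jm ζ := by
  rw [inv_eq_iff_mul_eq_one, ← mul_assoc, ← sc_comm sc_neg1 (Jm ζ), mul_assoc, Jm_sq, neg1_sq]

theorem sc_mul {g h : G2 K} (hg : IsSc g) (hh : IsSc h) : IsSc (g * h) := by
  obtain ⟨g1, g2, g3⟩ := hg
  obtain ⟨h1, h2, h3⟩ := hh
  refine ⟨?_, ?_, ?_⟩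
  · rw [mul01, g1, h1]; ring
  · rw [mul10, g2, h2]; ring
  · rw [mul00, mul11, g1, g2, g3, h3]; ring

theorem sc_diag_ne {g : G2 K} (hg : IsSc g) : g.1 0 0 ≠ 0 := by
  intro h
  have h1 := g.mul_inv
  have h2 := congrFun (congrFun h1 0) 0
  rw [Matrix.mul_apply, Fin.sum_univ_two, h, hg.1] at h2
  simp at h2

theorem sc_of_mul {g h : G2 K} (hg : IsSc g) (hh : IsSc (g * h)) : IsSc h := by
  have hne := sc_diag_ne hg
  obtain ⟨g1, g2, g3⟩ := hg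
  obtain ⟨h1, h2, h3⟩ := hh
  rw [mul01, g1, zero_mul, add_zero] at h1
  rw [mul10, g2, zero_mul, zero_add, ← g3] at h2
  rw [mul00, mul11, g1, g2, zero_mul, zero_mul, add_zero, zero_add, ← g3] at h3
  exact ⟨(mul_eq_zero.1 h1).resolve_left hne, (mul_eq_zero.1 h2).resolve_left hne,
    mul_left_cancel₀ hne h3⟩

theorem sc_pow {g : G2 K} (hg : IsSc g) (n : ℕ) : IsSc (g ^ n) := by
  induction n with
  | zero => rw [pow_zero]; exact sc_one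
  | succ n ih => rw [pow_succ]; exact sc_mul ih hg

theorem sc_inv {g : G2 K} (hg : IsSc g⁻¹) : IsSc g := by
  apply sc_of_mul hg
  rw [inv_mul_cancel]; exact sc_one

/-- `J₁ J_ζ` is diagonal. -/
theorem JJ_pow (ζ : Kˣ) (n : ℕ) : ((Jm 1 * Jm ζ) ^ n).1 0 1 = 0 ∧ ((Jm 1 * Jm ζ) ^ n).1 1 0 = 0 ∧
    ((Jm 1 * Jm ζ) ^ n).1 0 0 = (-((ζ⁻¹ : Kˣ) : K)) ^ n ∧
    ((Jm 1 * Jm ζ) ^ n).1 1 1 = (-(ζ : K)) ^ n := by
  induction n with
  | zero => simp [o00, o01, o10, o11]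
  | succ n ih =>
    obtain ⟨i1, i2, i3, i4⟩ := ih
    rw [pow_succ]
    refine ⟨?_, ?_, ?_, ?_⟩
    · rw [mul01, i1, i3, mul01, Jm00, Jm01, Jm01, Jm11]; ring
    · rw [mul10, i2, i4, mul10, Jm10, Jm00, Jm11, Jm10]; ring
    · rw [mul00, i1, i3, mul00, Jm00, Jm00, Jm01, Jm10]
      simp only [Units.val_one]; ring
    · rw [mul11, i2, i4, mul11, Jm10, Jm01, Jm11, Jm11]
      simp only [inv_one, Units.val_one]; ring

theorem JJ_sc (ζ : Kˣ) (n : ℕ) : IsSc ((Jm 1 * Jm ζ) ^ n) ↔ (ζ ^ 2) ^ n = 1 := by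
  obtain ⟨i1, i2, i3, i4⟩ := JJ_pow ζ n
  have hz : (-(ζ : K)) * (-((ζ⁻¹ : Kˣ) : K)) = 1 := by
    rw [neg_mul_neg]; exact ζ.mul_inv
  have hz2 : (-(ζ : K)) ^ n * (-((ζ⁻¹ : Kˣ) : K)) ^ n = 1 := by rw [← mul_pow, hz, one_pow]
  have hz3 : ((ζ ^ 2 : Kˣ) : K) ^ n = (-(ζ : K)) ^ n * (-(ζ : K)) ^ n := by
    rw [← mul_pow, Units.val_pow_eq_pow_val]; ring
  have hne : (-(ζ : K)) ^ n ≠ 0 := pow_ne_zero n (neg_ne_zero.2 ζ.ne_zero)
  constructor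
  · rintro ⟨-, -, h⟩
    rw [i3, i4] at h
    apply Units.ext
    rw [Units.val_pow_eq_pow_val, hz3, Units.val_one]
    nth_rewrite 2 [← h]
    exact hz2
  · intro h
    refine ⟨i1, i2, ?_⟩
    rw [i3, i4]
    have h1 := congrArg (fun u : Kˣ => (u : K)) h
    simp only [Units.val_one] at h1
    rw [Units.val_pow_eq_pow_val, hz3] at h1
    exact mul_left_cancel₀ hne (hz2.trans h1.symm)

theorem comm_J_iff (ζ : Kˣ) (x : G2 K) : x * Jm ζ = Jm ζ * x ↔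
    x.1 0 0 = x.1 1 1 ∧ x.1 1 0 = -((ζ⁻¹ : Kˣ) : K) * ((ζ⁻¹ : Kˣ) : K) * x.1 0 1 := by
  rw [eq_comm, comm_iff2, Jm00, Jm01, Jm10, Jm11]
  have hz : (ζ : K) * ((ζ⁻¹ : Kˣ) : K) = 1 := ζ.mul_inv
  have hne : (ζ : K) ≠ 0 := ζ.ne_zero
  constructor
  · rintro ⟨h1, h2, -⟩
    rw [sub_self, mul_zero] at h2
    refine ⟨sub_eq_zero.1 ((mul_eq_zero.1 h2).resolve_left hne), ?_⟩
    apply mul_left_cancel₀ hne
    rw [h1]
    linear_combination (x.1 0 1 * ((ζ⁻¹ : Kˣ) : K)) * hz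
  · rintro ⟨h1, h2⟩
    rw [h1, h2]
    refine ⟨?_, ?_, ?_⟩
    · linear_combination (-(x.1 0 1) * ((ζ⁻¹ : Kˣ) : K)) * hz
    · ring
    · ring

/-- A square root of `-1` commuting with `J` is `±J` or scalar. -/
theorem sqrt_neg1 {ζ : Kˣ} {x : G2 K} (h1 : x * Jm ζ = Jm ζ * x) (h2 : x * x = neg1)
    (h3 : ¬ IsSc x) : x = Jm ζ ∨ x = neg1 * Jm ζ := by
  rw [comm_J_iff] at h1
  obtain ⟨e1, e2⟩ := h1
  have hz : (ζ : K) * ((ζ⁻¹ : Kˣ) : K) = 1 := ζ.mul_inv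
  have f00 := congrArg (fun y : G2 K => y.1 0 0) h2
  have f01 := congrArg (fun y : G2 K => y.1 0 1) h2
  simp only [mul00, mul01, n00, n01] at f00 f01
  rw [← e1] at f01
  rw [e2] at f00
  have hb : x.1 0 1 ≠ 0 := by
    intro hb
    apply h3
    refine ⟨hb, ?_, e1⟩
    rw [e2, hb, mul_zero]
  have ha : x.1 0 0 = 0 := by
    have h4 : x.1 0 1 * (2 * x.1 0 0) = 0 := by linear_combination f01
    have h5 := (mul_eq_zero.1 h4).resolve_left hb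
    exact (mul_eq_zero.1 h5).resolve_left two_ne_zero
  rw [ha] at f00
  have hsq : (x.1 0 1 - ζ) * (x.1 0 1 + ζ) = 0 := by
    linear_combination (-(ζ : K) ^ 2) * f00 -
      ((x.1 0 1) ^ 2 * ((ζ : K) * ((ζ⁻¹ : Kˣ) : K) + 1)) * hz
  rcases mul_eq_zero.1 hsq with h | h
  · left
    have hb2 : x.1 0 1 = ζ := by linear_combination h
    apply ext2
    · rw [ha, Jm00]
    · rw [hb2, Jm01]
    · rw [e2, hb2, Jm10]
      linear_combination (-((ζ⁻¹ : Kˣ) : K)) * hz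
    · rw [← e1, ha, Jm11]
  · right
    have hb2 : x.1 0 1 = -ζ := by linear_combination h
    apply ext2
    · rw [ha, mul00, n00, n01, Jm00]; ring
    · rw [hb2, mul01, n00, n01, Jm01]; ring
    · rw [e2, hb2, mul10, n10, n11, Jm10]
      linear_combination ((ζ⁻¹ : Kˣ) : K) * hz
    · rw [← e1, ha, mul11, n10, n11, Jm11]; ring

theorem Jm_not_sc (ζ : Kˣ) : ¬ IsSc (Jm ζ) := by
  rintro ⟨h, -, -⟩
  rw [Jm01] at h
  exact ζ.ne_zero h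

/-! ### The tori -/

/-- The matrix `x e₊ + y e₋`, where `e_±` are the idempotents of `K[J]`. -/
def mat (I : K) (ζ : Kˣ) (x y : K) : Matrix (Fin 2) (Fin 2) K :=
  !![(x + y) / 2, ζ * I * (y - x) / 2; (ζ⁻¹ : Kˣ) * I * (x - y) / 2, (x + y) / 2]

theorem mat_mul {I : K} (hI : I * I = -1) (ζ : Kˣ) (x y x' y' : K) :
    mat I ζ x y * mat I ζ x' y' = mat I ζ (x * x') (y * y') := by
  have hz : (ζ : K) * ((ζ⁻¹ : Kˣ) : K) = 1 := ζ.mul_inv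
  ext i j
  fin_cases i <;> fin_cases j <;> simp [mat, Matrix.mul_apply] <;> field_simp <;>
    ring_nf <;> (try simp only [show I ^ 2 = -1 by rw [sq]; exact hI]) <;> ring

theorem mat_one (I : K) (ζ : Kˣ) : mat I ζ 1 1 = 1 := by
  ext i j
  fin_cases i <;> fin_cases j <;> simp [mat]

/-- The corresponding element of `GL_2`. -/
def tau {I : K} (hI : I * I = -1) (ζ : Kˣ) (x y : Kˣ) : G2 K :=
  ⟨mat I ζ x y, mat I ζ (x⁻¹ : Kˣ) (y⁻¹ : Kˣ),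
    by rw [mat_mul hI, Units.mul_inv, Units.mul_inv, mat_one],
    by rw [mat_mul hI, Units.inv_mul, Units.inv_mul, mat_one]⟩

theorem tau_mul {I : K} (hI : I * I = -1) (ζ : Kˣ) (x y x' y' : Kˣ) :
    tau hI ζ (x * x') (y * y') = tau hI ζ x y * tau hI ζ x' y' := by
  apply Units.ext
  change mat I ζ ((x * x' : Kˣ) : K) ((y * y' : Kˣ) : K) = mat I ζ x y * mat I ζ x' y'
  rw [mat_mul hI]; rfl

theorem tau_one {I : K} (hI : I * I = -1) (ζ : Kˣ) : tau hI ζ 1 1 = 1 := by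
  apply Units.ext
  exact mat_one I ζ

/-- scalar matrices -/
def scal (z : Kˣ) : G2 K := ⟨!![(z : K), 0; 0, z], !![((z⁻¹ : Kˣ) : K), 0; 0, (z⁻¹ : Kˣ)],
  by ext i j; fin_cases i <;> fin_cases j <;> simp [Matrix.mul_apply],
  by ext i j; fin_cases i <;> fin_cases j <;> simp [Matrix.mul_apply]⟩

theorem sc_scal (z : Kˣ) : IsSc (scal z) := ⟨rfl, rfl, rfl⟩

theorem s00 (z : Kˣ) : (scal z).1 0 0 = z := rfl
theorem s01 (z : Kˣ) : (scal z).1 0 1 = 0 := rfl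
theorem s10 (z : Kˣ) : (scal z).1 1 0 = 0 := rfl
theorem s11 (z : Kˣ) : (scal z).1 1 1 = z := rfl

theorem scal_mul (z w : Kˣ) : scal (z * w) = scal z * scal w := by
  apply ext2 <;> simp [mul00, mul01, mul10, mul11, s00, s01, s10, s11]

theorem scal_one : scal (1 : Kˣ) = 1 := by
  apply ext2 <;> simp [s00, s01, s10, s11, o00, o01, o10, o11]

/-- The parametrization of the torus. -/
def phi {I : K} (hI : I * I = -1) (ζ : Kˣ) : (Fin 5 → Kˣ) →* G4 K where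
  toFun t := ![tau hI 1 (t 0) (t 1), scal (t 4) * tau hI 1 (t 0)⁻¹ (t 1)⁻¹,
    tau hI ζ (t 2) (t 3), scal (t 4)⁻¹ * tau hI ζ (t 2)⁻¹ (t 3)⁻¹]
  map_one' := by
    funext i
    fin_cases i
    · simp [tau_one]
    · simp [tau_one, scal_one]
    · simp [tau_one]
    · simp [tau_one, scal_one]
  map_mul' := by
    intro s t
    have hc : ∀ (a b : Kˣ) (g h : G2 K), scal a * scal b * (g * h) =
        scal a * g * (scal b * h) := by
      intro a b g h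
      rw [mul_assoc, ← mul_assoc (scal b) g h, sc_comm (sc_scal b) g, mul_assoc, mul_assoc]
    funext i
    fin_cases i
    · simp [tau_mul]
    · change scal (s 4 * t 4) * tau hI 1 (s 0 * t 0)⁻¹ (s 1 * t 1)⁻¹ =
        scal (s 4) * tau hI 1 (s 0)⁻¹ (s 1)⁻¹ * (scal (t 4) * tau hI 1 (t 0)⁻¹ (t 1)⁻¹)
      rw [mul_inv, mul_inv, scal_mul, tau_mul, hc]
    · simp [tau_mul]
    · change scal (s 4 * t 4)⁻¹ * tau hI ζ (s 2 * t 2)⁻¹ (s 3 * t 3)⁻¹ =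
        scal (s 4)⁻¹ * tau hI ζ (s 2)⁻¹ (s 3)⁻¹ * (scal (t 4)⁻¹ * tau hI ζ (t 2)⁻¹ (t 3)⁻¹)
      rw [mul_inv, mul_inv, mul_inv, scal_mul, tau_mul, hc]

/-- The torus. -/
def TT {I : K} (hI : I * I = -1) (ζ : Kˣ) : Subgroup (G4 K) := (phi hI ζ).range

/-- The equations of the torus. -/
def Eqs (ζ : Kˣ) (h : G4 K) : Prop :=
  ((h 0).1 0 0 = (h 0).1 1 1 ∧ (h 0).1 1 0 = -(h 0).1 0 1) ∧
  ((h 1).1 0 0 = (h 1).1 1 1 ∧ (h 1).1 1 0 = -(h 1).1 0 1) ∧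
  ((h 2).1 0 0 = (h 2).1 1 1 ∧
    (h 2).1 1 0 = -((ζ⁻¹ : Kˣ) : K) * ((ζ⁻¹ : Kˣ) : K) * (h 2).1 0 1) ∧
  ((h 3).1 0 0 = (h 3).1 1 1 ∧
    (h 3).1 1 0 = -((ζ⁻¹ : Kˣ) : K) * ((ζ⁻¹ : Kˣ) : K) * (h 3).1 0 1) ∧
  ((h 0).1 0 0 * (h 1).1 0 1 + (h 0).1 0 1 * (h 1).1 1 1 = 0) ∧
  ((h 2).1 0 0 * (h 3).1 0 1 + (h 2).1 0 1 * (h 3).1 1 1 = 0) ∧
  ((h 0).1 0 0 * (h 1).1 0 0 + (h 0).1 0 1 * (h 1).1 1 0) *
    ((h 2).1 0 0 * (h 3).1 0 0 + (h 2).1 0 1 * (h 3).1 1 0) = 1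

theorem t00 {I : K} (hI : I * I = -1) (ζ x y : Kˣ) : (tau hI ζ x y).1 0 0 = ((x : K) + y) / 2 := rfl
theorem t01 {I : K} (hI : I * I = -1) (ζ x y : Kˣ) :
    (tau hI ζ x y).1 0 1 = ζ * I * ((y : K) - x) / 2 := rfl
theorem t10 {I : K} (hI : I * I = -1) (ζ x y : Kˣ) :
    (tau hI ζ x y).1 1 0 = (ζ⁻¹ : Kˣ) * I * ((x : K) - y) / 2 := rfl
theorem t11 {I : K} (hI : I * I = -1) (ζ x y : Kˣ) : (tau hI ζ x y).1 1 1 = ((x : K) + y) / 2 := rfl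

theorem phi0 {I : K} (hI : I * I = -1) (ζ : Kˣ) (t : Fin 5 → Kˣ) :
    phi hI ζ t 0 = tau hI 1 (t 0) (t 1) := rfl
theorem phi1 {I : K} (hI : I * I = -1) (ζ : Kˣ) (t : Fin 5 → Kˣ) :
    phi hI ζ t 1 = scal (t 4) * tau hI 1 (t 0)⁻¹ (t 1)⁻¹ := rfl
theorem phi2 {I : K} (hI : I * I = -1) (ζ : Kˣ) (t : Fin 5 → Kˣ) :
    phi hI ζ t 2 = tau hI ζ (t 2) (t 3) := rfl
theorem phi3 {I : K} (hI : I * I = -1) (ζ : Kˣ) (t : Fin 5 → Kˣ) :
    phi hI ζ t 3 = scal (t 4)⁻¹ * tau hI ζ (t 2)⁻¹ (t 3)⁻¹ := rfl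

theorem st00 {I : K} (hI : I * I = -1) (ζ x y z : Kˣ) :
    (scal z * tau hI ζ x y).1 0 0 = z * (((x : K) + y) / 2) := by
  rw [mul00, s00, s01, t00]; ring
theorem st01 {I : K} (hI : I * I = -1) (ζ x y z : Kˣ) :
    (scal z * tau hI ζ x y).1 0 1 = z * (ζ * I * ((y : K) - x) / 2) := by
  rw [mul01, s00, s01, t01]; ring
theorem st10 {I : K} (hI : I * I = -1) (ζ x y z : Kˣ) :
    (scal z * tau hI ζ x y).1 1 0 = z * ((ζ⁻¹ : Kˣ) * I * ((x : K) - y) / 2) := by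
  rw [mul10, s10, s11, t10]; ring
theorem st11 {I : K} (hI : I * I = -1) (ζ x y z : Kˣ) :
    (scal z * tau hI ζ x y).1 1 1 = z * (((x : K) + y) / 2) := by
  rw [mul11, s10, s11, t11]; ring

theorem eqs_phi {I : K} (hI : I * I = -1) (ζ : Kˣ) (t : Fin 5 → Kˣ) : Eqs ζ (phi hI ζ t) := by
  have hz : (ζ : K) * ((ζ⁻¹ : Kˣ) : K) = 1 := ζ.mul_inv
  have h0 : (t 0 : K) * (((t 0)⁻¹ : Kˣ) : K) = 1 := (t 0).mul_inv
  have h1 : (t 1 : K) * (((t 1)⁻¹ : Kˣ) : K) = 1 := (t 1).mul_inv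
  have h2 : (t 2 : K) * (((t 2)⁻¹ : Kˣ) : K) = 1 := (t 2).mul_inv
  have h3 : (t 3 : K) * (((t 3)⁻¹ : Kˣ) : K) = 1 := (t 3).mul_inv
  have h4 : (t 4 : K) * (((t 4)⁻¹ : Kˣ) : K) = 1 := (t 4).mul_inv
  unfold Eqs
  simp only [phi0, phi1, phi2, phi3, t00, t01, t10, t11, st00, st01, st10, st11]
  simp only [Units.val_one, inv_one]
  refine ⟨⟨trivial, by ring⟩, ⟨trivial, by ring⟩, ⟨trivial, ?_⟩, ⟨trivial, ?_⟩, ?_, ?_, ?_⟩
  · linear_combination (((ζ⁻¹ : Kˣ) : K) * I * ((t 3 : K) - t 2) / 2) * hz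
  · linear_combination ((((t 4)⁻¹ : Kˣ) : K) * ((ζ⁻¹ : Kˣ) : K) * I *
      ((((t 3)⁻¹ : Kˣ) : K) - (((t 2)⁻¹ : Kˣ) : K)) / 2) * hz
  · linear_combination ((t 4 : K) * I / 2) * (h1 - h0)
  · linear_combination ((((t 4)⁻¹ : Kˣ) : K) * I * (ζ : K) / 2) * (h3 - h2)
  · have e1 : (((t 0 : K) + t 1) / 2 * ((t 4 : K) * (((((t 0)⁻¹ : Kˣ) : K) + (((t 1)⁻¹ : Kˣ) : K)) / 2))
        + 1 * I * ((t 1 : K) - t 0) / 2 * ((t 4 : K) *
          (1 * I * ((((t 0)⁻¹ : Kˣ) : K) - (((t 1)⁻¹ : Kˣ) : K)) / 2))) = t 4 := by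
      linear_combination ((t 4 : K) / 2) * h0 + ((t 4 : K) / 2) * h1 +
        ((t 4 : K) * ((t 1 : K) - t 0) *
          ((((t 0)⁻¹ : Kˣ) : K) - (((t 1)⁻¹ : Kˣ) : K)) / 4) * hI
    have e2 : (((t 2 : K) + t 3) / 2 * ((((t 4)⁻¹ : Kˣ) : K) *
        (((((t 2)⁻¹ : Kˣ) : K) + (((t 3)⁻¹ : Kˣ) : K)) / 2))
        + (ζ : K) * I * ((t 3 : K) - t 2) / 2 * ((((t 4)⁻¹ : Kˣ) : K) *
          (((ζ⁻¹ : Kˣ) : K) * I * ((((t 2)⁻¹ : Kˣ) : K) - (((t 3)⁻¹ : Kˣ) : K)) / 2))) =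
        (((t 4)⁻¹ : Kˣ) : K) := by
      linear_combination ((((t 4)⁻¹ : Kˣ) : K) / 2) * h2 + ((((t 4)⁻¹ : Kˣ) : K) / 2) * h3 +
        ((((t 4)⁻¹ : Kˣ) : K) * ((t 3 : K) - t 2) *
          ((((t 2)⁻¹ : Kˣ) : K) - (((t 3)⁻¹ : Kˣ) : K)) / 4) * hI +
        ((((t 4)⁻¹ : Kˣ) : K) * I * I * ((t 3 : K) - t 2) *
          ((((t 2)⁻¹ : Kˣ) : K) - (((t 3)⁻¹ : Kˣ) : K)) / 4) * hz
    rw [e1, e2, h4]

theorem det_ne (g : G2 K) : g.1 0 0 * g.1 1 1 - g.1 0 1 * g.1 1 0 ≠ 0 := by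
  have h1 : IsUnit g.1.det := (Matrix.isUnit_iff_isUnit_det _).1 g.isUnit
  rw [Matrix.det_fin_two] at h1
  exact h1.ne_zero

theorem mem_of_eqs {I : K} (hI : I * I = -1) (ζ : Kˣ) {h : G4 K} (hh : Eqs ζ h) :
    h ∈ TT hI ζ := by
  obtain ⟨⟨a1, a2⟩, ⟨b1, b2⟩, ⟨c1, c2⟩, ⟨d1, d2⟩, e1, e2, e3⟩ := hh
  have hz : (ζ : K) * ((ζ⁻¹ : Kˣ) : K) = 1 := ζ.mul_inv
  set a := (h 0).1 0 0 with ha
  set b := (h 0).1 0 1 with hb
  set a' := (h 1).1 0 0 with ha'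
  set b' := (h 1).1 0 1 with hb'
  set c := (h 2).1 0 0 with hc
  set d := (h 2).1 0 1 with hd
  set c' := (h 3).1 0 0 with hc'
  set d' := (h 3).1 0 1 with hd'
  set w : K := ((ζ⁻¹ : Kˣ) : K) with hw
  have hdet0 : (a - I * b) * (a + I * b) ≠ 0 := by
    have := det_ne (h 0)
    rw [← a1, a2] at this
    intro h0
    apply this
    linear_combination h0 + b ^ 2 * hI
  have hdet2 : (c - I * w * d) * (c + I * w * d) ≠ 0 := by
    have := det_ne (h 2)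
    rw [← c1, c2] at this
    intro h0
    apply this
    linear_combination h0 + (w * d) ^ 2 * hI
  have hne := mul_ne_zero_iff.1 hdet0
  have hne2 := mul_ne_zero_iff.1 hdet2
  rw [← b1] at e1
  rw [← d1] at e2
  rw [b2, d2] at e3
  have hp : a * a' - b * b' ≠ 0 := by
    intro h0
    have : (a * a' + b * -b') = 0 := by linear_combination h0
    rw [this, zero_mul] at e3
    exact zero_ne_one e3
  -- the parameters
  refine ⟨![Units.mk0 _ hne.2, Units.mk0 _ hne.1, Units.mk0 _ hne2.2, Units.mk0 _ hne2.1,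
    Units.mk0 _ hp], ?_⟩
  set i0 : K := (((Units.mk0 _ hne.2)⁻¹ : Kˣ) : K) with hi0
  set i1 : K := (((Units.mk0 _ hne.1)⁻¹ : Kˣ) : K) with hi1
  set i2 : K := (((Units.mk0 _ hne2.2)⁻¹ : Kˣ) : K) with hi2
  set i3 : K := (((Units.mk0 _ hne2.1)⁻¹ : Kˣ) : K) with hi3
  set z0 : K := (((Units.mk0 _ hp)⁻¹ : Kˣ) : K) with hz0
  have k0 : (a + I * b) * i0 = 1 := (Units.mk0 _ hne.2).mul_inv
  have k1 : (a - I * b) * i1 = 1 := (Units.mk0 _ hne.1).mul_inv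
  have k2 : (c + I * w * d) * i2 = 1 := (Units.mk0 _ hne2.2).mul_inv
  have k3 : (c - I * w * d) * i3 = 1 := (Units.mk0 _ hne2.1).mul_inv
  have kz : (a * a' - b * b') * z0 = 1 := (Units.mk0 _ hp).mul_inv
  set p : K := a * a' - b * b' with hpd
  set q : K := c * c' - w * w * d * d' with hqd
  have hzq : z0 = q := by
    apply mul_left_cancel₀ hp
    rw [kz]
    linear_combination -e3
  funext i
  fin_cases i
  · apply ext2
    · change ((a + I * b) + (a - I * b)) / 2 = a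
      ring
    · change (1 : K) * I * ((a - I * b) - (a + I * b)) / 2 = b
      linear_combination (-b) * hI
    · change ((1⁻¹ : Kˣ) : K) * I * ((a + I * b) - (a - I * b)) / 2 = (h 0).1 1 0
      rw [a2, inv_one, Units.val_one]
      linear_combination b * hI
    · change ((a + I * b) + (a - I * b)) / 2 = (h 0).1 1 1
      rw [← a1]; ring
  · apply ext2
    · refine (st00 hI 1 _ _ _).trans ?_
      change p * ((i0 + i1) / 2) = a'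
      apply mul_right_cancel₀ hdet0
      linear_combination (p / 2) * (a - I * b) * k0 + (p / 2) * (a + I * b) * k1 - b * e1 +
        (a' * b ^ 2) * hI
    · refine (st01 hI 1 _ _ _).trans ?_
      change p * ((1 : K) * I * (i1 - i0) / 2) = b'
      apply mul_right_cancel₀ hdet0
      linear_combination (p * I / 2) * (a + I * b) * k1 - (p * I / 2) * (a - I * b) * k0 - a * e1 +
        (p * b + b' * b ^ 2) * hI
    · refine (st10 hI 1 _ _ _).trans ?_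
      change p * (((1⁻¹ : Kˣ) : K) * I * (i0 - i1) / 2) = (h 1).1 1 0
      rw [b2, inv_one, Units.val_one]
      apply mul_right_cancel₀ hdet0
      linear_combination -(p * I / 2) * (a + I * b) * k1 + (p * I / 2) * (a - I * b) * k0 + a * e1 -
        (p * b + b' * b ^ 2) * hI
    · refine (st11 hI 1 _ _ _).trans ?_
      change p * ((i0 + i1) / 2) = (h 1).1 1 1
      rw [← b1]
      apply mul_right_cancel₀ hdet0
      linear_combination (p / 2) * (a - I * b) * k0 + (p / 2) * (a + I * b) * k1 - b * e1 +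
        (a' * b ^ 2) * hI
  · apply ext2
    · change ((c + I * w * d) + (c - I * w * d)) / 2 = c
      ring
    · change (ζ : K) * I * ((c - I * w * d) - (c + I * w * d)) / 2 = d
      linear_combination (-(ζ : K) * w * d) * hI + d * hz
    · change w * I * ((c + I * w * d) - (c - I * w * d)) / 2 = (h 2).1 1 0
      rw [c2]
      linear_combination (w ^ 2 * d) * hI
    · change ((c + I * w * d) + (c - I * w * d)) / 2 = (h 2).1 1 1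
      rw [← c1]; ring
  · apply ext2
    · refine (st00 hI ζ _ _ _).trans ?_
      change z0 * ((i2 + i3) / 2) = c'
      rw [hzq]
      apply mul_right_cancel₀ hdet2
      linear_combination (q / 2) * (c - I * w * d) * k2 + (q / 2) * (c + I * w * d) * k3 -
        (w ^ 2 * d) * e2 + (c' * w ^ 2 * d ^ 2) * hI
    · refine (st01 hI ζ _ _ _).trans ?_
      change z0 * ((ζ : K) * I * (i3 - i2) / 2) = d'
      rw [hzq]
      apply mul_right_cancel₀ hdet2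
      linear_combination (q * ζ * I / 2) * (c + I * w * d) * k3 -
        (q * ζ * I / 2) * (c - I * w * d) * k2 + (q * I * I * d) * hz +
        (q * d + d' * w ^ 2 * d ^ 2) * hI - c * e2
    · refine (st10 hI ζ _ _ _).trans ?_
      change z0 * (w * I * (i2 - i3) / 2) = (h 3).1 1 0
      rw [hzq, d2]
      apply mul_right_cancel₀ hdet2
      linear_combination (q * w * I / 2) * (c - I * w * d) * k2 -
        (q * w * I / 2) * (c + I * w * d) * k3 +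
        (-q * w ^ 2 * d - w ^ 4 * d' * d ^ 2) * hI + w ^ 2 * c * e2
    · refine (st11 hI ζ _ _ _).trans ?_
      change z0 * ((i2 + i3) / 2) = (h 3).1 1 1
      rw [hzq, ← d1]
      apply mul_right_cancel₀ hdet2
      linear_combination (q / 2) * (c - I * w * d) * k2 + (q / 2) * (c + I * w * d) * k3 -
        (w ^ 2 * d) * e2 + (c' * w ^ 2 * d ^ 2) * hI

theorem mem_iff {I : K} (hI : I * I = -1) (ζ : Kˣ) (h : G4 K) : h ∈ TT hI ζ ↔ Eqs ζ h := by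
  constructor
  · rintro ⟨t, rfl⟩
    exact eqs_phi hI ζ t
  · exact mem_of_eqs hI ζ

theorem eqs_facts {ζ : Kˣ} {h : G4 K} (hh : Eqs ζ h) :
    h 0 * Jm 1 = Jm 1 * h 0 ∧ h 1 * Jm 1 = Jm 1 * h 1 ∧ h 2 * Jm ζ = Jm ζ * h 2 ∧
      h 3 * Jm ζ = Jm ζ * h 3 ∧ IsSc (h 0 * h 1) ∧ IsSc (h 2 * h 3) := by
  obtain ⟨⟨a1, a2⟩, ⟨b1, b2⟩, ⟨c1, c2⟩, ⟨d1, d2⟩, e1, e2, e3⟩ := hh
  refine ⟨?_, ?_, ?_, ?_, ⟨?_, ?_, ?_⟩, ⟨?_, ?_, ?_⟩⟩
  · rw [comm_J_iff]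
    refine ⟨a1, ?_⟩
    rw [a2, inv_one, Units.val_one]; ring
  · rw [comm_J_iff]
    refine ⟨b1, ?_⟩
    rw [b2, inv_one, Units.val_one]; ring
  · rw [comm_J_iff]; exact ⟨c1, c2⟩
  · rw [comm_J_iff]; exact ⟨d1, d2⟩
  · rw [mul01]; exact e1
  · rw [mul10, a2, b2, ← a1]; rw [← b1] at e1; linear_combination -e1
  · rw [mul00, mul11, a2, b2, ← a1, ← b1]; ring
  · rw [mul01]; exact e2
  · rw [mul10, c2, d2, ← c1]; rw [← d1] at e2
    linear_combination (-((ζ⁻¹ : Kˣ) : K) * ((ζ⁻¹ : Kˣ) : K)) * e2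
  · rw [mul00, mul11, c2, d2, ← c1, ← d1]; ring

theorem T_subset_X {I : K} (hI : I * I = -1) (ζ : Kˣ) : (TT hI ζ : Set (G4 K)) ⊆ X4 K := by
  rintro _ ⟨t, rfl⟩
  change phi hI ζ t 0 * phi hI ζ t 1 * phi hI ζ t 2 * phi hI ζ t 3 = 1
  rw [phi0, phi1, phi2, phi3]
  have h1 : ∀ (ξ x y : Kˣ), tau hI ξ x y * tau hI ξ x⁻¹ y⁻¹ = 1 := by
    intro ξ x y
    rw [← tau_mul, mul_inv_cancel, mul_inv_cancel, tau_one]
  have h2 : tau hI 1 (t 0) (t 1) * (scal (t 4) * tau hI 1 (t 0)⁻¹ (t 1)⁻¹) = scal (t 4) := by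
    rw [← mul_assoc, ← sc_comm (sc_scal _), mul_assoc, h1, mul_one]
  have h3 : tau hI ζ (t 2) (t 3) * (scal (t 4)⁻¹ * tau hI ζ (t 2)⁻¹ (t 3)⁻¹) = scal (t 4)⁻¹ := by
    rw [← mul_assoc, ← sc_comm (sc_scal _), mul_assoc, h1, mul_one]
  rw [h2, mul_assoc, h3, ← scal_mul, mul_inv_cancel, scal_one]

end

end Pool.Agent.X250.Torus
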