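import Pool.Agent.X250.TorusEnd

/-!
# The tori `T_ζ` lie in different orbits
-/

set_option autoImplicit false
set_option linter.unusedSectionVars false

namespace Pool.Agent.X250.Torus

open scoped commutatorElement

section
variable {K : Type} [Field K] [CharZero K]

theorem X4_two {i j : Fin 4} (hij : i ≠ j) (x y : G2 K) :
    e i x * e j y ∈ X4 K ↔ x * y = 1 := by
  have hxy : y * x = 1 ↔ x * y = 1 := mul_eq_one_comm
  unfold X4
  rw [Set.mem_ofPred_eq]
  fin_cases i <;> fin_cases j <;> first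
    | exact absurd rfl hij
    | (simp [e, hxy])

theorem place {ζ : Kˣ} {i j : Fin 4} (hij : i ≠ j) {w : G2 K} (hw : ¬ IsSc w)
    (h : Eqs ζ (e i w * e j w⁻¹)) :
    (i.val < 2 ∧ j.val < 2 ∧ w * Jm 1 = Jm 1 * w) ∨
      (2 ≤ i.val ∧ 2 ≤ j.val ∧ w * Jm ζ = Jm ζ * w) := by
  obtain ⟨h0, h1, h2, h3, h4, h5⟩ := eqs_facts h
  have hw' : ¬ IsSc w⁻¹ := fun hc => hw (sc_inv hc)
  have ci : ∀ ξ : Kˣ, w⁻¹ * Jm ξ = Jm ξ * w⁻¹ → w * Jm ξ = Jm ξ * w := by
    intro ξ hc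
    exact (Commute.inv_left_iff.1 (show Commute w⁻¹ (Jm ξ) from hc)).eq
  fin_cases i <;> fin_cases j
  · exact absurd rfl hij
  · left; refine ⟨by decide, by decide, ?_⟩; simpa [e] using h0
  · exfalso; apply hw; simpa [e] using h4
  · exfalso; apply hw; simpa [e] using h4
  · left; refine ⟨by decide, by decide, ?_⟩; simpa [e] using h1
  · exact absurd rfl hij
  · exfalso; apply hw; simpa [e] using h4
  · exfalso; apply hw; simpa [e] using h4
  · exfalso; apply hw; simpa [e] using h5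
  · exfalso; apply hw; simpa [e] using h5
  · exact absurd rfl hij
  · right; refine ⟨by decide, by decide, ?_⟩; simpa [e] using h2
  · exfalso; apply hw; simpa [e] using h5
  · exfalso; apply hw; simpa [e] using h5
  · right; refine ⟨by decide, by decide, ?_⟩; simpa [e] using h3
  · exact absurd rfl hij

/-- The invariant. -/
theorem orbit_pow {ζ ζ' : Kˣ} {I : K} (hI : I * I = -1) (σ : MulAut (G4 K))
    (hX : ∀ h ∈ X4 K, σ h ∈ X4 K) (hT : ∀ h ∈ TT hI ζ, σ h ∈ TT hI ζ') (n : ℕ)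
    (hn : (ζ ^ 2) ^ n = 1) : (ζ' ^ 2) ^ n = 1 := by
  obtain ⟨π, hπ⟩ := exists_perm σ
  -- the component maps
  have hs : ∀ i, ∀ d ∈ D K, σ (e i d) = e (π i) (σ (e i d) (π i)) := by
    intro i d hd
    funext m
    by_cases hm : m = π i
    · subst hm; rw [e_same]
    · rw [hπ i d hd m hm, e_ne hm]
  have hss : ∀ i j, ∀ d ∈ D K, σ (e i d) (π i) = σ (e j d) (π j) := by
    intro i j d hd
    by_cases hij : i = j
    · rw [hij]
    · have h1 : e i d * e j d⁻¹ ∈ X4 K := by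
        rw [X4_two hij, mul_inv_cancel]
      have h2 := hX _ h1
      rw [map_mul, map_inv, map_inv, hs i d hd, hs j d hd, ← map_inv,
        X4_two (fun h => hij (π.injective h)), mul_inv_eq_one] at h2
      exact h2
  set s : G2 K → G2 K := fun d => σ (e 0 d) (π 0) with hsdef
  have hse : ∀ i, ∀ d ∈ D K, σ (e i d) = e (π i) (s d) := by
    intro i d hd
    rw [hs i d hd, hss i 0 d hd]
  have hsm : ∀ d d', s (d * d') = s d * s d' := by
    intro d d'
    rw [hsdef]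
    simp only [map_mul, Pi.mul_apply]
  have hs1 : s 1 = 1 := by rw [hsdef]; simp only [map_one, Pi.one_apply]
  have hsinj : ∀ d ∈ D K, ∀ d' ∈ D K, s d = s d' → d = d' := by
    intro d hd d' hd' h
    have h1 : σ (e 0 d) = σ (e 0 d') := by rw [hse 0 d hd, hse 0 d' hd', h]
    have h2 := congrFun (σ.injective h1) 0
    rwa [e_same, e_same] at h2
  have hsc : ∀ d ∈ D K, (∀ d' ∈ D K, d * d' = d' * d) → IsSc (s d) := by
    intro d hd hcomm
    by_contra hcon
    obtain ⟨a, ha, b, hb, hab⟩ := exists_D (K := K)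
    apply hab
    apply hsinj _ (mul_mem ha hb) _ (mul_mem hb ha)
    rw [hsm, hsm]
    apply cent_comm hcon
    · rw [← hsm, ← hsm, hcomm a ha]
    · rw [← hsm, ← hsm, hcomm b hb]
  have hnsc : ∀ ξ : Kˣ, ¬ IsSc (s (Jm ξ)) := by
    intro ξ hc
    have h1 : Jm ξ * E12 1 = E12 1 * Jm ξ := by
      apply hsinj _ (mul_mem (Jm_mem ξ) (E12_mem 1)) _ (mul_mem (E12_mem 1) (Jm_mem ξ))
      rw [hsm, hsm]
      exact sc_comm hc _
    have h2 := congrArg (fun y : G2 K => y.1 1 1) h1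
    rw [mul11, mul11, Jm10, Jm11, E12_01, E12_11, E12_10, Jm01] at h2
    simp at h2
  set x := s (Jm 1) with hx
  set y := s (Jm ζ) with hy
  have hneg_mem : (neg1 : G2 K) ∈ D K := by
    rw [← Jm_sq 1]; exact mul_mem (Jm_mem 1) (Jm_mem 1)
  have hsneg : s neg1 = neg1 := by
    have h1 : IsSc (s neg1) := hsc _ hneg_mem (fun d' _ => sc_comm sc_neg1 d')
    have h2 : s neg1 * s neg1 = 1 := by rw [← hsm, neg1_sq, hs1]
    have h3 : s neg1 ≠ 1 := by
      intro h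
      have h4 := hsinj _ hneg_mem _ (one_mem _) (h.trans hs1.symm)
      have h5 := congrArg (fun y : G2 K => y.1 0 0) h4
      rw [n00, o00] at h5
      norm_num at h5
    obtain ⟨k1, k2, k3⟩ := h1
    have h4 := congrArg (fun y : G2 K => y.1 0 0) h2
    rw [mul00, o00, k1, zero_mul, add_zero] at h4
    have h5 : (s neg1).1 0 0 = -1 := by
      have h6 : ((s neg1).1 0 0 - 1) * ((s neg1).1 0 0 + 1) = 0 := by linear_combination h4
      rcases mul_eq_zero.1 h6 with h7 | h7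
      · exfalso
        apply h3
        have h8 : (s neg1).1 0 0 = 1 := by linear_combination h7
        apply ext2
        · rw [h8, o00]
        · rw [k1, o01]
        · rw [k2, o10]
        · rw [← k3, h8, o11]
      · linear_combination h7
    apply ext2
    · rw [h5, n00]
    · rw [k1, n01]
    · rw [k2, n10]
    · rw [← k3, h5, n11]
  have hx2 : x * x = neg1 := by rw [hx, ← hsm, Jm_sq, hsneg]
  have hy2 : y * y = neg1 := by rw [hy, ← hsm, Jm_sq, hsneg]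
  have hinv : ∀ d ∈ D K, s d⁻¹ = (s d)⁻¹ := by
    intro d _
    rw [eq_inv_iff_mul_eq_one, ← hsm, inv_mul_cancel, hs1]
  have hu : Eqs ζ' (e (π 0) x * e (π 1) x⁻¹) := by
    rw [← mem_iff hI]
    have h1 := hT _ (mem_u ζ hI)
    rw [map_mul, hse 0 _ (Jm_mem 1), hse 1 _ (inv_mem (Jm_mem 1)), hinv _ (Jm_mem 1)] at h1
    exact h1
  have hv : Eqs ζ' (e (π 2) y * e (π 3) y⁻¹) := by
    rw [← mem_iff hI]
    have h1 := hT _ (mem_v ζ hI)
    rw [map_mul, hse 2 _ (Jm_mem ζ), hse 3 _ (inv_mem (Jm_mem ζ)), hinv _ (Jm_mem ζ)] at h1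
    exact h1
  have p01 : π 0 ≠ π 1 := fun h => absurd (π.injective h) (by decide)
  have p23 : π 2 ≠ π 3 := fun h => absurd (π.injective h) (by decide)
  have p02 : π 0 ≠ π 2 := fun h => absurd (π.injective h) (by decide)
  have p03 : π 0 ≠ π 3 := fun h => absurd (π.injective h) (by decide)
  have p12 : π 1 ≠ π 2 := fun h => absurd (π.injective h) (by decide)
  have p13 : π 1 ≠ π 3 := fun h => absurd (π.injective h) (by decide)
  have P1 := place p01 (hnsc 1) hu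
  have P2 := place p23 (hnsc ζ) hv
  -- `(x y)^n` is scalar
  have hxyn : IsSc ((x * y) ^ n) := by
    have h1 : ∀ k : ℕ, s ((Jm 1 * Jm ζ) ^ k) = (x * y) ^ k := by
      intro k
      induction k with
      | zero => rw [pow_zero, pow_zero, hs1]
      | succ k ih => rw [pow_succ, hsm, ih, hsm, pow_succ]
    rw [← h1]
    have h2 : IsSc ((Jm 1 * Jm ζ) ^ n) := (JJ_sc ζ n).2 hn
    exact hsc _ (pow_mem (mul_mem (Jm_mem 1) (Jm_mem ζ)) n) (fun d' _ => sc_comm h2 d')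
  -- removing scalar factors
  have strip : ∀ (c g : G2 K), IsSc c → IsSc ((c * g) ^ n) → IsSc (g ^ n) := by
    intro c g hc h
    rw [(show Commute c g from sc_comm hc g).mul_pow] at h
    exact sc_of_mul (sc_pow hc n) h
  have hJ : ∀ {ξ ξ' : Kˣ} {a b : G2 K}, (a = Jm ξ ∨ a = neg1 * Jm ξ) →
      (b = Jm ξ' ∨ b = neg1 * Jm ξ') → IsSc ((a * b) ^ n) → IsSc ((Jm ξ * Jm ξ') ^ n) := by
    intro ξ ξ' a b ha hb h
    rcases ha with rfl | rfl <;> rcases hb with rfl | rfl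
    · exact h
    · apply strip neg1 _ sc_neg1
      have e1 : neg1 * (Jm ξ * Jm ξ') = Jm ξ * (neg1 * Jm ξ') := by
        rw [← mul_assoc, sc_comm sc_neg1, mul_assoc]
      rw [e1]; exact h
    · apply strip neg1 _ sc_neg1
      rw [← mul_assoc]; exact h
    · have e1 : neg1 * Jm ξ * (neg1 * Jm ξ') = Jm ξ * Jm ξ' := by
        rw [sc_comm sc_neg1 (Jm ξ), mul_assoc, ← mul_assoc neg1 neg1, neg1_sq, one_mul]
      rw [e1] at h; exact h
  rw [← JJ_sc]
  have hval : ∀ i j : Fin 4, i ≠ j → i.val < 2 → j.val < 2 → ∀ k : Fin 4, k ≠ i → k ≠ j →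
      2 ≤ k.val := by decide
  have hval' : ∀ i j : Fin 4, i ≠ j → 2 ≤ i.val → 2 ≤ j.val → ∀ k : Fin 4, k ≠ i → k ≠ j →
      k.val < 2 := by decide
  rcases P1 with ⟨a1, a2, a3⟩ | ⟨a1, a2, a3⟩
  · rcases P2 with ⟨b1, b2, b3⟩ | ⟨b1, b2, b3⟩
    · have := hval _ _ p01 a1 a2 (π 2) p02.symm p12.symm
      omega
    · exact hJ (sqrt_neg1 a3 hx2 (hnsc 1)) (sqrt_neg1 b3 hy2 (hnsc ζ)) hxyn
  · rcases P2 with ⟨b1, b2, b3⟩ | ⟨b1, b2, b3⟩
    · have h1 := hJ (sqrt_neg1 a3 hx2 (hnsc 1)) (sqrt_neg1 b3 hy2 (hnsc ζ)) hxyn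
      -- conjugate
      have h2 : Jm 1 * (Jm ζ' * Jm 1) ^ n * (Jm 1)⁻¹ = (Jm 1 * Jm ζ') ^ n := by
        rw [← conj_pow]
        congr 1
        group
      rw [← h2, ← sc_comm h1, mul_inv_cancel_right]
      exact h1
    · have := hval' _ _ p01 a1 a2 (π 2) p02.symm p12.symm
      omega

end

/-- Infinitely many orbits. -/
theorem main (K : Type) [Field K] [IsAlgClosed K] [CharZero K] :
    ∃ M : Fin (4 + 1) → GL (Fin 2) K, (∀ i, IsDiag (M i)) ∧
      ∃ T : ℕ → Subgroup (GG K 2 4), (∀ k, IsMaxTorusIn (XX M) (T k)) ∧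
        ∀ k l, k ≠ l → ¬ SameOrbit (XX M) (T k) (T l) := by
  obtain ⟨I, hI'⟩ := IsAlgClosed.exists_pow_nat_eq (-1 : K) (n := 2) (by norm_num)
  have hI : I * I = -1 := by rw [← sq]; exact hI'
  have hroot : ∀ k : ℕ, ∃ ζ : Kˣ, ∀ n : ℕ, (ζ ^ 2) ^ n = 1 ↔ (k + 2) ∣ n := by
    intro k
    have : NeZero ((2 * (k + 2) : ℕ) : K) := ⟨by exact_mod_cast (by omega : 2 * (k + 2) ≠ 0)⟩
    obtain ⟨ω, hω⟩ := HasEnoughRootsOfUnity.exists_primitiveRoot K (2 * (k + 2))
    refine ⟨Units.mk0 ω (hω.ne_zero (by omega)), fun n => ?_⟩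
    rw [← pow_mul]
    have h1 : (Units.mk0 ω (hω.ne_zero (by omega))) ^ (2 * n) = 1 ↔ ω ^ (2 * n) = 1 := by
      rw [← Units.val_inj]
      simp
    rw [h1, hω.pow_eq_one_iff_dvd]
    exact Nat.mul_dvd_mul_iff_left (by norm_num)
  choose ζ hζ using hroot
  refine ⟨fun _ => 1, fun i => ⟨1, fun _ => 1, by simp⟩, fun k => TT hI (ζ k), ?_, ?_⟩
  · intro k
    rw [X4_eq]
    apply T_maximal hI
    intro h1
    have h2 := (hζ k 1).1 (by rw [pow_one]; exact h1)
    have := Nat.le_of_dvd one_pos h2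
    omega
  · intro k l hkl
    rw [X4_eq]
    rintro ⟨σ, -, hX, hT⟩
    change Subgroup.map (MulEquiv.toMonoidHom σ) (TT hI (ζ k)) = TT hI (ζ l) at hT
    have hX1 : ∀ h ∈ X4 K, σ h ∈ X4 K := by
      intro h hh
      rw [← hX]; exact ⟨h, hh, rfl⟩
    have hX2 : ∀ h ∈ X4 K, σ⁻¹ h ∈ X4 K := by
      intro h hh
      rw [← hX] at hh
      obtain ⟨g, hg, rfl⟩ := hh
      have : σ⁻¹ (σ g) = g := MulAut.inv_apply_self _ σ g
      rw [this]; exact hg
    have hT1 : ∀ h ∈ TT hI (ζ k), σ h ∈ TT hI (ζ l) := by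
      intro h hh
      rw [← hT]; exact ⟨h, hh, rfl⟩
    have hT2 : ∀ h ∈ TT hI (ζ l), σ⁻¹ h ∈ TT hI (ζ k) := by
      intro h hh
      rw [← hT] at hh
      obtain ⟨g, hg, rfl⟩ := hh
      have : σ⁻¹ (σ g) = g := MulAut.inv_apply_self _ σ g
      change σ⁻¹ (σ g) ∈ _
      rw [this]; exact hg
    have h1 := (hζ l _).1 (orbit_pow hI σ hX1 hT1 (k + 2) ((hζ k _).2 dvd_rfl))
    have h2 := (hζ k _).1 (orbit_pow hI σ⁻¹ hX2 hT2 (l + 2) ((hζ l _).2 dvd_rfl))
    have h3 := Nat.dvd_antisymm h1 h2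
    omega

end Pool.Agent.X250.Torus
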